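import Mathlib
import Pool.Agent.V110.SP.Poly

/-!
# A nonnegative kernel with analytic polynomial completion, concentrated near `1`
-/

set_option autoImplicit false

open Filter Topology Set Metric Complex Polynomial MeasureTheory
open scoped Real

namespace Pool.Agent.V110.WI

theorem re_herglotz (x : ℂ) (hx : x ≠ 1) :
    ((1 + x) / (1 - x)).re = (1 - ‖x‖ ^ 2) / ‖1 - x‖ ^ 2 := by
  have h0 : Complex.normSq (1 - x) ≠ 0 := by
    rw [Ne, Complex.normSq_eq_zero, sub_eq_zero]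
    exact fun h => hx h.symm
  rw [Complex.div_re, ← Complex.normSq_eq_norm_sq, ← Complex.normSq_eq_norm_sq]
  field_simp
  rw [Complex.normSq_apply]
  simp only [Complex.add_re, Complex.sub_re, Complex.add_im, Complex.sub_im, Complex.one_re,
    Complex.one_im]
  ring

theorem exists_c {η τ : ℝ} (hη : 0 < η) (hτ : 0 < τ) : ∃ c : ℂ[X],
    (∀ w : ℂ, ‖w‖ = 1 → 0 ≤ (1 + w * c.eval w).re) ∧
    (∀ θ : ℝ, τ ≤ |θ| → |θ| ≤ π →
      (1 + Complex.exp (θ * Complex.I) * c.eval (Complex.exp (θ * Complex.I))).re ≤ η) := by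
  have hpi := Real.pi_pos
  set t : ℝ := min (1 / 2) (η * τ ^ 2 / (4 * π ^ 2)) with ht
  have ht0 : 0 < t := lt_min (by norm_num) (by positivity)
  have ht1 : t ≤ 1 / 2 := min_le_left _ _
  have ht2 : t ≤ η * τ ^ 2 / (4 * π ^ 2) := min_le_right _ _
  set ρ : ℝ := 1 - t with hρ
  have hρ0 : 0 < ρ := by linarith
  have hρ1 : ρ < 1 := by linarith
  -- choice of the degree
  have htend : Tendsto (fun n : ℕ => 2 * ρ ^ (n + 1) / (1 - ρ)) atTop (𝓝 0) := by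
    have h1 : Tendsto (fun n : ℕ => ρ ^ (n + 1)) atTop (𝓝 0) :=
      (tendsto_add_atTop_iff_nat 1).2 (tendsto_pow_atTop_nhds_zero_of_lt_one hρ0.le hρ1)
    have h2 := (h1.const_mul 2).div_const (1 - ρ)
    simpa using h2
  have hm : 0 < min (η / 2) ((1 - ρ) / (1 + ρ)) := by
    apply lt_min (by linarith)
    apply div_pos <;> linarith
  obtain ⟨n, hn⟩ := (htend.eventually (gt_mem_nhds hm)).exists
  have hn1 : 2 * ρ ^ (n + 1) / (1 - ρ) < η / 2 := lt_of_lt_of_le hn (min_le_left _ _)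
  have hn2 : 2 * ρ ^ (n + 1) / (1 - ρ) < (1 - ρ) / (1 + ρ) := lt_of_lt_of_le hn (min_le_right _ _)
  set c : ℂ[X] := C 2 * C (ρ : ℂ) * ∑ m ∈ Finset.range n, (C (ρ : ℂ) * X) ^ m with hc
  -- the value on the circle
  have key : ∀ w : ℂ, ‖w‖ = 1 → 1 + w * c.eval w =
      (1 + ρ * w) / (1 - ρ * w) - 2 * (ρ * w) ^ (n + 1) / (1 - ρ * w) ∧
      ρ * w ≠ 1 ∧ ‖(ρ : ℂ) * w‖ = ρ := by
    intro w hw
    have h1 : ‖(ρ : ℂ) * w‖ = ρ := by
      rw [norm_mul, hw, mul_one, Complex.norm_real, Real.norm_of_nonneg hρ0.le]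
    have h2 : (ρ : ℂ) * w ≠ 1 := by
      intro h
      rw [h, norm_one] at h1
      linarith
    refine ⟨?_, h2, h1⟩
    have h3 : (1 : ℂ) - ρ * w ≠ 0 := sub_ne_zero.2 (Ne.symm h2)
    have h4 : c.eval w = 2 * ρ * ∑ m ∈ Finset.range n, ((ρ : ℂ) * w) ^ m := by
      rw [hc]
      simp only [eval_mul, eval_C, eval_finsetSum, eval_pow, eval_X]
    have h5 : (∑ m ∈ Finset.range n, ((ρ : ℂ) * w) ^ m) * (1 - ρ * w) = 1 - (ρ * w) ^ n := by
      have := geom_sum_mul ((ρ : ℂ) * w) n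
      linear_combination -this
    rw [h4, ← sub_div, eq_div_iff h3]
    linear_combination 2 * ρ * w * h5
  have herr : ∀ w : ℂ, ‖w‖ = 1 → ‖2 * ((ρ : ℂ) * w) ^ (n + 1) / (1 - ρ * w)‖ ≤
      2 * ρ ^ (n + 1) / (1 - ρ) := by
    intro w hw
    obtain ⟨-, h2, h1⟩ := key w hw
    rw [norm_div, norm_mul, norm_pow, h1, Complex.norm_ofNat]
    apply div_le_div_of_nonneg_left (by positivity) (by linarith)
    have := norm_sub_norm_le (1 : ℂ) (ρ * w)
    rw [norm_one, h1] at this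
    exact this
  refine ⟨c, fun w hw => ?_, fun θ hθ1 hθ2 => ?_⟩
  · obtain ⟨h1, h2, h3⟩ := key w hw
    rw [h1, Complex.sub_re, re_herglotz _ h2, h3]
    have h4 := (Complex.re_le_norm _).trans (herr w hw)
    have h5 : ‖(1 : ℂ) - ρ * w‖ ≤ 1 + ρ := by
      refine (norm_sub_le _ _).trans ?_
      rw [norm_one, h3]
    have h6 : 0 < ‖(1 : ℂ) - ρ * w‖ := norm_pos_iff.2 (sub_ne_zero.2 (Ne.symm h2))
    have h7 : (1 - ρ) / (1 + ρ) ≤ (1 - ρ ^ 2) / ‖(1 : ℂ) - ρ * w‖ ^ 2 := by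
      rw [div_le_div_iff₀ (by linarith) (by positivity)]
      have h8 : ‖(1 : ℂ) - ρ * w‖ ^ 2 ≤ (1 + ρ) ^ 2 := pow_le_pow_left₀ h6.le h5 2
      nlinarith
    linarith
  · set w : ℂ := Complex.exp (θ * Complex.I) with hw
    have hw1 : ‖w‖ = 1 := Complex.norm_exp_ofReal_mul_I θ
    obtain ⟨h1, h2, h3⟩ := key w hw1
    rw [h1, Complex.sub_re, re_herglotz _ h2, h3]
    have h4 : -(2 * ((ρ : ℂ) * w) ^ (n + 1) / (1 - ρ * w)).re ≤ 2 * ρ ^ (n + 1) / (1 - ρ) := by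
      have := Complex.abs_re_le_norm (2 * ((ρ : ℂ) * w) ^ (n + 1) / (1 - ρ * w))
      have h4' := neg_abs_le (2 * ((ρ : ℂ) * w) ^ (n + 1) / (1 - ρ * w)).re
      linarith [herr w hw1]
    have h6 : 0 < ‖(1 : ℂ) - ρ * w‖ := norm_pos_iff.2 (sub_ne_zero.2 (Ne.symm h2))
    -- lower bound for the distance
    have h7 : ‖(1 : ℂ) - w‖ ≤ 2 * ‖(1 : ℂ) - ρ * w‖ := by
      have e1 : (1 : ℂ) - w = (1 - ρ * w) + (ρ - 1) * w := by ring
      have e2 : ‖((ρ : ℂ) - 1) * w‖ = 1 - ρ := by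
        rw [norm_mul, hw1, mul_one, ← Complex.ofReal_one, ← Complex.ofReal_sub, Complex.norm_real,
          Real.norm_of_nonpos (by linarith)]
        ring
      have e3 : 1 - ρ ≤ ‖(1 : ℂ) - ρ * w‖ := by
        have := norm_sub_norm_le (1 : ℂ) (ρ * w)
        rw [norm_one, h3] at this
        exact this
      calc ‖(1 : ℂ) - w‖ ≤ ‖(1 : ℂ) - ρ * w‖ + ‖((ρ : ℂ) - 1) * w‖ := by
            rw [e1]; exact norm_add_le _ _
        _ ≤ 2 * ‖(1 : ℂ) - ρ * w‖ := by rw [e2]; linarith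
    have h8 : 2 / π * |θ| ≤ ‖(1 : ℂ) - w‖ := by
      have e1 : ‖(1 : ℂ) - w‖ = |2 * Real.sin (θ / 2)| := by
        rw [norm_sub_rev, hw, mul_comm, Complex.norm_exp_I_mul_ofReal_sub_one, Real.norm_eq_abs]
      have e2 : 2 / π * |θ / 2| ≤ |Real.sin (θ / 2)| := Real.mul_abs_le_abs_sin (by
        rw [abs_div, abs_two]; linarith)
      rw [e1, abs_mul, abs_two]
      rw [abs_div, abs_two] at e2
      linarith
    have h9 : τ / π ≤ ‖(1 : ℂ) - ρ * w‖ := by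
      have : 2 / π * τ ≤ 2 / π * |θ| := mul_le_mul_of_nonneg_left hθ1 (by positivity)
      have e : 2 / π * τ = 2 * (τ / π) := by ring
      linarith
    have h10 : (1 - ρ ^ 2) / ‖(1 : ℂ) - ρ * w‖ ^ 2 ≤ η / 2 := by
      rw [div_le_iff₀ (by positivity)]
      have e1 : (τ / π) ^ 2 ≤ ‖(1 : ℂ) - ρ * w‖ ^ 2 := pow_le_pow_left₀ (by positivity) h9 2
      have e2 : η / 2 * (τ / π) ^ 2 ≤ η / 2 * ‖(1 : ℂ) - ρ * w‖ ^ 2 :=
        mul_le_mul_of_nonneg_left e1 (by positivity)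
      have e3 : η / 2 * (τ / π) ^ 2 = 2 * (η * τ ^ 2 / (4 * π ^ 2)) := by
        field_simp
        ring
      have e4 : 1 - ρ ^ 2 ≤ 2 * t := by rw [hρ]; nlinarith
      linarith
    linarith

end Pool.Agent.V110.WI
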