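import Mathlib
import Pool.Agent.V110.WI.Kernel

/-!
# One step of the construction
-/

set_option autoImplicit false

open Filter Topology Set Metric Complex Polynomial MeasureTheory
open scoped Real

namespace Pool.Agent.V110.WI

/-- the point of the unit circle -/
noncomputable def ex (θ : ℝ) : ℂ := Complex.exp (θ * Complex.I)

theorem ex_norm (θ : ℝ) : ‖ex θ‖ = 1 := Complex.norm_exp_ofReal_mul_I θ

theorem ex_cont : Continuous ex := by unfold ex; fun_prop

theorem ex_pow (θ : ℝ) (N : ℕ) : ex θ ^ N = ex (N * θ) := by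
  unfold ex
  rw [← Complex.exp_nat_mul]
  congr 1
  push_cast
  ring

theorem ex_per : Function.Periodic ex (2 * π) := by
  intro θ
  unfold ex
  have : ((θ + 2 * π : ℝ) : ℂ) * Complex.I = θ * Complex.I + 2 * π * Complex.I := by
    push_cast; ring
  rw [this, Complex.exp_add, Complex.exp_two_pi_mul_I, mul_one]

/-- invariance of the mean under `θ ↦ N θ` -/
theorem mean_mul {χ : ℝ → ℝ} (hχ : Function.Periodic χ (2 * π))
    (hi : ∀ a b, IntervalIntegrable χ volume a b) {N : ℕ} (hN : 1 ≤ N) :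
    ∫ θ in (0 : ℝ)..(2 * π), χ (N * θ) = ∫ θ in (0 : ℝ)..(2 * π), χ θ := by
  have hN0 : (N : ℝ) ≠ 0 := by positivity
  rw [intervalIntegral.integral_comp_mul_left (fun θ => χ θ) hN0]
  have h1 := hχ.intervalIntegral_add_zsmul_eq (n := (N : ℤ)) 0
    (fun a b => hi a b)
  rw [zero_add] at h1
  have h2 : ((N : ℤ) • (2 * π) : ℝ) = N * (2 * π) := by simp
  rw [h2] at h1
  rw [mul_zero, h1, hχ.intervalIntegral_add_eq 0 0, zero_add]
  simp only [zsmul_eq_mul, smul_eq_mul]
  push_cast
  field_simp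

theorem small_mean {κ : ℂ → ℝ} (hκ : Continuous fun θ => κ (ex θ)) {η τ : ℝ} (hτ : 0 < τ)
    (h : ∀ θ : ℝ, τ ≤ |θ| → |θ| ≤ π → κ (ex θ) ≤ η) {N : ℕ} (hN : 1 ≤ N) :
    (∫ θ in (0 : ℝ)..(2 * π), if η < κ (ex θ ^ N) then (1 : ℝ) else 0) ≤ 2 * τ := by
  classical
  have hpi := Real.pi_pos
  set χ : ℝ → ℝ := fun θ => if η < κ (ex θ) then (1 : ℝ) else 0 with hχ
  have hmeas : MeasurableSet {θ : ℝ | η < κ (ex θ)} :=
    (isOpen_lt continuous_const hκ).measurableSet
  have hχm : Measurable χ := Measurable.ite hmeas measurable_const measurable_const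
  have hχ1 : ∀ θ, ‖χ θ‖ ≤ 1 := by
    intro θ
    simp only [hχ]
    split_ifs <;> simp
  have hχ0 : ∀ θ, 0 ≤ χ θ := by
    intro θ
    simp only [hχ]
    split_ifs <;> norm_num
  have hi : ∀ a b, IntervalIntegrable χ volume a b := by
    intro a b
    rw [intervalIntegrable_iff]
    exact Measure.integrableOn_of_bounded (M := 1) (by simp) hχm.aestronglyMeasurable
      (Filter.Eventually.of_forall hχ1)
  have hper : Function.Periodic χ (2 * π) := by
    intro θ
    simp only [hχ]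
    rw [ex_per θ]
  have e1 : (∫ θ in (0 : ℝ)..(2 * π), if η < κ (ex θ ^ N) then (1 : ℝ) else 0) =
      ∫ θ in (0 : ℝ)..(2 * π), χ (N * θ) := by
    congr 1
    ext θ
    simp only [hχ, ex_pow]
  rw [e1, mean_mul hper hi hN]
  have e2 : ∫ θ in (0 : ℝ)..(2 * π), χ θ = ∫ θ in (-π)..π, χ θ := by
    have := hper.intervalIntegral_add_eq 0 (-π)
    rw [zero_add] at this
    rw [this]
    congr 1
    ring
  rw [e2, intervalIntegral.integral_of_le (by linarith)]
  rw [← integral_indicator measurableSet_Ioc]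
  have e3 : ∫ θ : ℝ, (Icc (-τ) τ).indicator (fun _ => (1 : ℝ)) θ = 2 * τ := by
    rw [integral_indicator measurableSet_Icc, setIntegral_const, smul_eq_mul, mul_one,
      Measure.real, Real.volume_Icc, ENNReal.toReal_ofReal (by linarith)]
    ring
  rw [← e3]
  apply integral_mono
  · rw [integrable_indicator_iff measurableSet_Ioc]
    exact Measure.integrableOn_of_bounded (M := 1) (by simp) hχm.aestronglyMeasurable
      (Filter.Eventually.of_forall hχ1)
  · rw [integrable_indicator_iff measurableSet_Icc]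
    exact integrableOn_const (by simp) (by simp)
  · intro θ
    by_cases hθ : θ ∈ Ioc (-π) π
    · rw [indicator_of_mem hθ]
      by_cases hθ2 : θ ∈ Icc (-τ) τ
      · rw [indicator_of_mem hθ2]
        exact (le_abs_self _).trans (hχ1 θ)
      · rw [indicator_of_notMem hθ2]
        have h3 : τ ≤ |θ| := by
          by_contra hc
          rw [not_le, abs_lt] at hc
          exact hθ2 ⟨hc.1.le, hc.2.le⟩
        have h4 : |θ| ≤ π := abs_le.2 ⟨hθ.1.le, hθ.2⟩
        have h5 := h θ h3 h4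
        simp only [hχ]
        rw [if_neg (not_lt.2 h5)]
    · rw [indicator_of_notMem hθ]
      exact indicator_nonneg (fun _ _ => zero_le_one) θ

/-- **the step of the construction** -/
theorem step (A : ℂ[X]) {s r L ε δ : ℝ} (hs : 0 < s) (hsr : s < r) (hL : 1 ≤ L)
    (hA : ∀ z : ℂ, ‖z‖ ≤ r → ‖A.eval z‖ ≤ L) (hε : 0 < ε) (hδ : 0 < δ) :
    ∃ W : ℂ[X], (∀ z : ℂ, ‖z‖ ≤ s → ‖W.eval z‖ ≤ δ) ∧
      (∀ z : ℂ, ‖z‖ = r → (A.eval z + W.eval z).re ≤ L) ∧
      (∫ θ in (0 : ℝ)..(2 * π),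
        if (A.eval (r * ex θ) + W.eval (r * ex θ)).re < L - 1 then (1 : ℝ) else 0) ≤ ε := by
  classical
  have hr : 0 < r := hs.trans hsr
  have hrC : (r : ℂ) ≠ 0 := by exact_mod_cast hr.ne'
  obtain ⟨c, hc1, hc2⟩ := exists_c (η := 1 / (2 * L)) (τ := ε / 2) (by positivity) (by positivity)
  set Ar : ℂ[X] := A.comp (C (r : ℂ) * X) with hAr
  have hAre : ∀ w : ℂ, Ar.eval w = A.eval (r * w) := by
    intro w
    rw [hAr, eval_comp, eval_mul, eval_C, eval_X]
  set d : ℕ := Ar.natDegree with hd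
  set G : ℂ[X] := C (L : ℂ) * X ^ d - C (1 / 2) * (X ^ d * Ar + SP.star Ar) with hG
  obtain ⟨B1, hB1⟩ := (isCompact_closedBall (0 : ℂ) 1).exists_bound_of_continuousOn
    (f := fun z => c.eval z) (Polynomial.continuous _).continuousOn
  obtain ⟨B2, hB2⟩ := (isCompact_closedBall (0 : ℂ) 1).exists_bound_of_continuousOn
    (f := fun z => G.eval z) (Polynomial.continuous _).continuousOn
  have hB10 : 0 ≤ B1 := le_trans (norm_nonneg _) (hB1 0 (by simp))
  have hB20 : 0 ≤ B2 := le_trans (norm_nonneg _) (hB2 0 (by simp))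
  -- choice of `N`
  set σ : ℝ := s / r with hσ
  have hσ0 : 0 < σ := div_pos hs hr
  have hσ1 : σ < 1 := (div_lt_one hr).2 hsr
  have ht : Tendsto (fun m : ℕ => σ ^ m * (B1 * B2)) atTop (𝓝 0) := by
    have := (tendsto_pow_atTop_nhds_zero_of_lt_one hσ0.le hσ1).mul_const (B1 * B2)
    rwa [zero_mul] at this
  obtain ⟨m₀, hm₀⟩ := ((ht.eventually (gt_mem_nhds hδ)).and (eventually_ge_atTop 1)).exists
  set N : ℕ := m₀ + d with hN
  have hN1 : 1 ≤ N := by omega
  set Wr : ℂ[X] := -(X ^ m₀ * (c.comp (X ^ N)) * G) with hWr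
  have hWre : ∀ w : ℂ, Wr.eval w = -(w ^ m₀ * c.eval (w ^ N) * G.eval w) := by
    intro w
    rw [hWr, eval_neg, eval_mul, eval_mul, eval_pow, eval_X, eval_comp, eval_pow, eval_X]
  set W : ℂ[X] := Wr.comp (C ((1 / r : ℝ) : ℂ) * X) with hW
  have hWe : ∀ z : ℂ, W.eval z = Wr.eval (((1 / r : ℝ) : ℂ) * z) := by
    intro z
    rw [hW, eval_comp, eval_mul, eval_C, eval_X]
  -- on the circle
  have hGe : ∀ w : ℂ, ‖w‖ = 1 → G.eval w = w ^ d * ((L - (A.eval (r * w)).re : ℝ) : ℂ) := by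
    intro w hw
    have hw0 : w ≠ 0 := fun h => by rw [h, norm_zero] at hw; exact zero_ne_one hw
    have hwi : ((starRingEnd ℂ) w)⁻¹ = w := by
      rw [inv_eq_iff_eq_inv]
      refine eq_inv_of_mul_eq_one_left ?_
      rw [← Complex.normSq_eq_conj_mul_self, Complex.normSq_eq_norm_sq, hw]
      simp
    have h1 := SP.star_eval Ar hw0
    rw [hwi] at h1
    have h2 : (((A.eval (r * w)).re : ℝ) : ℂ) =
        (Ar.eval w + (starRingEnd ℂ) (Ar.eval w)) / 2 := by
      rw [hAre, Complex.re_eq_add_conj]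
    rw [hG]
    simp only [eval_sub, eval_mul, eval_C, eval_pow, eval_X, eval_add]
    rw [h1, Complex.ofReal_sub, h2]
    ring
  have hWc : ∀ w : ℂ, ‖w‖ = 1 → (Wr.eval w).re =
      (L - (A.eval (r * w)).re) * (1 - (1 + w ^ N * c.eval (w ^ N)).re) := by
    intro w hw
    have h1 : Wr.eval w = ((L - (A.eval (r * w)).re : ℝ) : ℂ) *
        (1 - (1 + w ^ N * c.eval (w ^ N))) := by
      rw [hWre, hGe w hw, hN, pow_add]
      ring
    rw [h1, Complex.re_ofReal_mul, Complex.sub_re, Complex.one_re]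
  have hWz : ∀ w : ℂ, W.eval (r * w) = Wr.eval w := by
    intro w
    rw [hWe]
    congr 1
    rw [← mul_assoc, ← Complex.ofReal_mul, one_div, inv_mul_cancel₀ hr.ne', Complex.ofReal_one,
      one_mul]
  have hv0 : ∀ w : ℂ, ‖w‖ = 1 → 0 ≤ L - (A.eval (r * w)).re ∧ L - (A.eval (r * w)).re ≤ 2 * L := by
    intro w hw
    have h1 : ‖A.eval (r * w)‖ ≤ L := hA _ (by
      rw [norm_mul, hw, mul_one, Complex.norm_real, Real.norm_of_nonneg hr.le])
    have h2 := Complex.abs_re_le_norm (A.eval (r * w))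
    have h3 := abs_le.1 (h2.trans h1)
    constructor <;> linarith [h3.1, h3.2]
  refine ⟨W, ?_, ?_, ?_⟩
  · intro z hz
    rw [hWe, hWre, norm_neg, norm_mul, norm_mul, norm_pow]
    have hw : ‖((1 / r : ℝ) : ℂ) * z‖ ≤ σ := by
      rw [norm_mul, Complex.norm_real, Real.norm_of_nonneg (by positivity), one_div,
        inv_mul_le_iff₀ hr, hσ]
      rw [mul_div_cancel₀ _ hr.ne']
      exact hz
    set w : ℂ := ((1 / r : ℝ) : ℂ) * z
    have hw1 : ‖w‖ ≤ 1 := hw.trans hσ1.le
    have h1 : ‖w‖ ^ m₀ ≤ σ ^ m₀ := pow_le_pow_left₀ (norm_nonneg _) hw m₀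
    have h2 : ‖c.eval (w ^ N)‖ ≤ B1 := hB1 _ (by
      rw [mem_closedBall, dist_zero_right, norm_pow]
      exact pow_le_one₀ (norm_nonneg _) hw1)
    have h3 : ‖G.eval w‖ ≤ B2 := hB2 _ (by
      rw [mem_closedBall, dist_zero_right]; exact hw1)
    calc ‖w‖ ^ m₀ * ‖c.eval (w ^ N)‖ * ‖G.eval w‖ ≤ σ ^ m₀ * B1 * B2 := by
          gcongr
      _ ≤ δ := by rw [mul_assoc]; exact hm₀.1.le
  · intro z hz
    obtain ⟨w, hw, rfl⟩ : ∃ w : ℂ, ‖w‖ = 1 ∧ r * w = z := by
      refine ⟨z / r, ?_, mul_div_cancel₀ z hrC⟩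
      rw [norm_div, hz, Complex.norm_real, Real.norm_of_nonneg hr.le, div_self hr.ne']
    rw [Complex.add_re, hWz, hWc w hw]
    have h1 := hc1 (w ^ N) (by rw [norm_pow, hw, one_pow])
    have h2 := (hv0 w hw).1
    nlinarith
  · have h1 := small_mean (κ := fun w => (1 + w * c.eval w).re) (η := 1 / (2 * L)) (τ := ε / 2)
      (by
        have := ex_cont
        have hc := c.continuous
        fun_prop) (by positivity) (fun θ h1 h2 => hc2 θ h1 h2) hN1
    have h2 : 2 * (ε / 2) = ε := by ring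
    rw [h2] at h1
    refine le_trans ?_ h1
    have hcA : Continuous fun θ : ℝ => (A.eval (r * ex θ) + W.eval (r * ex θ)).re := by
      have := ex_cont
      have h1 := A.continuous
      have h2 := W.continuous
      fun_prop
    have hcB : Continuous fun θ : ℝ => (1 + ex θ ^ N * c.eval (ex θ ^ N)).re := by
      have := ex_cont
      have hc := c.continuous
      fun_prop
    have hint : ∀ (S : Set ℝ) (_ : MeasurableSet S), IntervalIntegrable
        (fun θ => if θ ∈ S then (1 : ℝ) else 0) volume 0 (2 * π) := by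
      intro S hS
      rw [intervalIntegrable_iff, uIoc_of_le (by positivity)]
      refine Measure.integrableOn_of_bounded (M := 1) measure_Ioc_lt_top.ne
        (Measurable.ite hS measurable_const measurable_const).aestronglyMeasurable
        (Filter.Eventually.of_forall fun θ => ?_)
      split_ifs <;> simp
    refine intervalIntegral.integral_mono_on (by positivity) ?_ ?_ ?_
    · exact hint {θ | (A.eval (r * ex θ) + W.eval (r * ex θ)).re < L - 1}
        (isOpen_lt hcA continuous_const).measurableSet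
    · exact hint {θ | 1 / (2 * L) < (1 + ex θ ^ N * c.eval (ex θ ^ N)).re}
        (isOpen_lt continuous_const hcB).measurableSet
    · intro θ _
      by_cases hbad : 1 / (2 * L) < (1 + ex θ ^ N * c.eval (ex θ ^ N)).re
      · rw [if_pos hbad]
        split_ifs <;> norm_num
      · rw [if_neg hbad, if_neg]
        rw [not_lt] at hbad ⊢
        rw [Complex.add_re, hWz, hWc _ (ex_norm θ)]
        obtain ⟨h3, h4⟩ := hv0 _ (ex_norm θ)
        have h5 := hc1 (ex θ ^ N) (by rw [norm_pow, ex_norm, one_pow])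
        have h6 : (L - (A.eval (r * ex θ)).re) * (1 + ex θ ^ N * c.eval (ex θ ^ N)).re ≤ 1 := by
          calc _ ≤ (2 * L) * (1 / (2 * L)) := mul_le_mul h4 hbad h5 (by linarith)
            _ = 1 := by field_simp
        linarith

end Pool.Agent.V110.WI
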