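import Mathlib
import Pool.Agent.V110.WI.Step

/-!
# The sequence of polynomials and its limit
-/

set_option autoImplicit false

open Filter Topology Set Metric Complex Polynomial MeasureTheory
open scoped Real

namespace Pool.Agent.V110.WI

/-- the radii -/
noncomputable def rad (k : ℕ) : ℝ := 1 - (1 / 2) ^ (k + 1)

theorem rad_lt_one (k : ℕ) : rad k < 1 := by
  unfold rad
  have : (0 : ℝ) < (1 / 2) ^ (k + 1) := by positivity
  linarith

theorem rad_sub (k : ℕ) : rad (k + 1) - rad k = (1 / 2) ^ (k + 2) := by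
  unfold rad; ring

theorem rad_lt_succ (k : ℕ) : rad k < rad (k + 1) := by
  have := rad_sub k
  have h : (0 : ℝ) < (1 / 2) ^ (k + 2) := by positivity
  linarith

theorem rad_mono : StrictMono rad := strictMono_nat_of_lt_succ rad_lt_succ

theorem rad_zero : rad 0 = 1 / 2 := by unfold rad; norm_num

theorem rad_ge (k : ℕ) : 1 / 2 ≤ rad k := by
  rw [← rad_zero]; exact rad_mono.monotone (Nat.zero_le k)

theorem rad_pos (k : ℕ) : 0 < rad k := lt_of_lt_of_le (by norm_num) (rad_ge k)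

theorem rad_tendsto : Tendsto rad atTop (𝓝 1) := by
  have h : Tendsto (fun k : ℕ => ((1 / 2 : ℝ)) ^ (k + 1)) atTop (𝓝 0) :=
    (tendsto_add_atTop_iff_nat 1).2 (tendsto_pow_atTop_nhds_zero_of_lt_one (by norm_num)
      (by norm_num))
  have := h.const_sub 1
  rw [sub_zero] at this
  exact this

theorem exists_rad {x : ℝ} (hx : x < 1) : ∃ k, x < rad k :=
  (rad_tendsto.eventually (lt_mem_nhds hx)).exists

/-- the relation between two consecutive stages -/
def Rel (k : ℕ) (s t : ℂ[X] × ℝ) : Prop :=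
  s.2 ≤ t.2 ∧ (∀ z : ℂ, ‖z‖ ≤ 1 → (k + 1) * (‖s.1.eval z‖ + 1) ≤ t.2) ∧
  (∀ z : ℂ, ‖z‖ ≤ rad k → ‖t.1.eval z - s.1.eval z‖ ≤ (1 / 2) ^ (k + 1)) ∧
  (∀ z : ℂ, ‖z‖ = rad (k + 1) → (t.1.eval z).re ≤ t.2) ∧
  (∫ θ in (0 : ℝ)..(2 * π),
    if (t.1.eval (rad (k + 1) * ex θ)).re < t.2 - 1 then (1 : ℝ) else 0) ≤
      2 * π * ((1 / 16) * (1 / 2) ^ (k + 2))

theorem exists_rel (k : ℕ) (s : ℂ[X] × ℝ) : ∃ t, Rel k s t := by
  obtain ⟨B, hB⟩ := (isCompact_closedBall (0 : ℂ) 1).exists_bound_of_continuousOn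
    (f := fun z => s.1.eval z) (Polynomial.continuous _).continuousOn
  have hB0 : 0 ≤ B := le_trans (norm_nonneg _) (hB 0 (by simp))
  set L : ℝ := max s.2 ((k + 1) * (B + 1)) with hL
  have hLB : (k + 1) * (B + 1) ≤ L := le_max_right _ _
  have hk0 : (0 : ℝ) ≤ k := Nat.cast_nonneg k
  have hL1 : 1 ≤ L := by nlinarith
  have hbd : ∀ z : ℂ, ‖z‖ ≤ 1 → ‖s.1.eval z‖ ≤ B := fun z hz => hB z (by
    rw [mem_closedBall, dist_zero_right]; exact hz)
  obtain ⟨W, hW1, hW2, hW3⟩ := step s.1 (rad_pos k) (rad_lt_succ k) hL1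
    (fun z hz => by
      have := hbd z (hz.trans (rad_lt_one _).le)
      nlinarith)
    (ε := 2 * π * ((1 / 16) * (1 / 2) ^ (k + 2))) (δ := (1 / 2) ^ (k + 1))
    (by have := Real.pi_pos; positivity) (by positivity)
  refine ⟨(s.1 + W, L), le_max_left _ _, ?_, ?_, ?_, ?_⟩
  · intro z hz
    have := hbd z hz
    change _ ≤ L
    nlinarith
  · intro z hz
    simp only [eval_add, add_sub_cancel_left]
    exact hW1 z hz
  · intro z hz
    simp only [eval_add]
    exact hW2 z hz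
  · simp only [eval_add]
    exact hW3

/-- the stages -/
noncomputable def stage : ℕ → ℂ[X] × ℝ
  | 0 => (C 20 * X, 0)
  | (k + 1) => Classical.choose (exists_rel k (stage k))

theorem stage_rel (k : ℕ) : Rel k (stage k) (stage (k + 1)) :=
  Classical.choose_spec (exists_rel k (stage k))

/-- the polynomials -/
noncomputable def A (k : ℕ) : ℂ[X] := (stage k).1

/-- the heights -/
noncomputable def Lv (k : ℕ) : ℝ := (stage k).2

theorem Lv_mono : Monotone Lv := monotone_nat_of_le_succ fun k => (stage_rel k).1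

theorem A_zero : A 0 = C 20 * X := rfl

theorem A_bound' {j i : ℕ} (hij : j < i) {z : ℂ} (hz : ‖z‖ ≤ 1) :
    (j + 1) * (‖(A j).eval z‖ + 1) ≤ Lv i :=
  ((stage_rel j).2.1 z hz).trans (Lv_mono hij)

theorem A_bound {j i : ℕ} (hij : j < i) {z : ℂ} (hz : ‖z‖ ≤ 1) :
    ‖(A j).eval z‖ + (j + 1) ≤ Lv i := by
  have h1 := A_bound' hij hz
  have h2 : (0 : ℝ) ≤ j := Nat.cast_nonneg j
  nlinarith [norm_nonneg ((A j).eval z)]

theorem A_diff (k : ℕ) {z : ℂ} (hz : ‖z‖ ≤ rad k) :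
    ‖(A (k + 1)).eval z - (A k).eval z‖ ≤ (1 / 2) ^ (k + 1) := (stage_rel k).2.2.1 z hz

theorem A_re (k : ℕ) {z : ℂ} (hz : ‖z‖ = rad (k + 1)) :
    ((A (k + 1)).eval z).re ≤ Lv (k + 1) := (stage_rel k).2.2.2.1 z hz

theorem A_exc (k : ℕ) : (∫ θ in (0 : ℝ)..(2 * π),
    if ((A (k + 1)).eval (rad (k + 1) * ex θ)).re < Lv (k + 1) - 1 then (1 : ℝ) else 0) ≤
      2 * π * ((1 / 16) * (1 / 2) ^ (k + 2)) := (stage_rel k).2.2.2.2

theorem A_diff' {k : ℕ} {z : ℂ} (hz : ‖z‖ ≤ rad k) (n : ℕ) :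
    ‖(A (k + n)).eval z - (A k).eval z‖ ≤ (1 / 2) ^ k * (1 - (1 / 2) ^ n) := by
  induction n with
  | zero => simp
  | succ n ih =>
    have h1 := A_diff (k + n) (z := z) (hz.trans (rad_mono.monotone (Nat.le_add_right k n)))
    have h2 : ‖(A (k + (n + 1))).eval z - (A k).eval z‖ ≤
        ‖(A (k + n + 1)).eval z - (A (k + n)).eval z‖ + ‖(A (k + n)).eval z - (A k).eval z‖ := by
      rw [← add_assoc]
      have : (A (k + n + 1)).eval z - (A k).eval z =
        ((A (k + n + 1)).eval z - (A (k + n)).eval z) + ((A (k + n)).eval z - (A k).eval z) := by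
        ring
      rw [this]
      exact norm_add_le _ _
    refine h2.trans ((add_le_add h1 ih).trans (le_of_eq ?_))
    ring

theorem A_diff'' {k m : ℕ} (hkm : k ≤ m) {z : ℂ} (hz : ‖z‖ ≤ rad k) :
    ‖(A m).eval z - (A k).eval z‖ ≤ (1 / 2) ^ k := by
  obtain ⟨n, rfl⟩ := Nat.exists_eq_add_of_le hkm
  refine (A_diff' hz n).trans ?_
  have h1 : (0 : ℝ) < (1 / 2) ^ n := by positivity
  have h2 : (0 : ℝ) < (1 / 2) ^ k := by positivity
  nlinarith

/-- the limit function -/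
theorem exists_U : ∃ U : ℂ → ℂ, DifferentiableOn ℂ U (ball 0 1) ∧
    ∀ k, ∀ z : ℂ, ‖z‖ ≤ rad k → ‖U z - (A k).eval z‖ ≤ (1 / 2) ^ k := by
  have hC : ∀ z : ℂ, ‖z‖ < 1 → CauchySeq fun m => (A m).eval z := by
    intro z hz
    obtain ⟨k, hk⟩ := exists_rad hz
    refine Metric.cauchySeq_iff'.2 fun ε hε => ?_
    obtain ⟨N, hN⟩ := exists_pow_lt_of_lt_one hε (by norm_num : (1 / 2 : ℝ) < 1)
    refine ⟨max k N, fun n hn => ?_⟩
    rw [dist_eq_norm]
    refine lt_of_le_of_lt (A_diff'' hn (hk.le.trans (rad_mono.monotone (le_max_left _ _)))) ?_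
    refine lt_of_le_of_lt ?_ hN
    exact pow_le_pow_of_le_one (by norm_num) (by norm_num) (le_max_right _ _)
  choose! U hU using fun z hz => cauchySeq_tendsto_of_complete (hC z hz)
  have hbd : ∀ k, ∀ z : ℂ, ‖z‖ ≤ rad k → ‖U z - (A k).eval z‖ ≤ (1 / 2) ^ k := by
    intro k z hz
    have h1 := (hU z (hz.trans_lt (rad_lt_one k))).sub_const ((A k).eval z)
    refine le_of_tendsto h1.norm ?_
    filter_upwards [eventually_ge_atTop k] with m hm
    exact A_diff'' hm hz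
  refine ⟨U, ?_, hbd⟩
  have hloc : TendstoLocallyUniformlyOn (fun m z => (A m).eval z) U atTop (ball 0 1) := by
    rw [tendstoLocallyUniformlyOn_iff_forall_isCompact isOpen_ball]
    intro K hK hKc
    rw [Metric.tendstoUniformlyOn_iff]
    intro ε hε
    obtain ⟨k, hk⟩ : ∃ k, ∀ z ∈ K, ‖z‖ ≤ rad k := by
      rcases K.eq_empty_or_nonempty with rfl | hne
      · exact ⟨0, fun z hz => absurd hz (notMem_empty z)⟩
      · obtain ⟨z₀, hz₀, hmax⟩ := hKc.exists_isMaxOn hne continuous_norm.continuousOn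
        have h1 : ‖z₀‖ < 1 := by simpa using hK hz₀
        obtain ⟨k, hk⟩ := exists_rad h1
        exact ⟨k, fun z hz => (hmax hz).trans hk.le⟩
    obtain ⟨N, hN⟩ := exists_pow_lt_of_lt_one hε (by norm_num : (1 / 2 : ℝ) < 1)
    filter_upwards [eventually_ge_atTop (max k N)] with n hn z hz
    rw [dist_eq_norm]
    refine lt_of_le_of_lt (hbd n z ((hk z hz).trans
      (rad_mono.monotone ((le_max_left _ _).trans hn)))) ?_
    refine lt_of_le_of_lt ?_ hN
    exact pow_le_pow_of_le_one (by norm_num) (by norm_num) ((le_max_right _ _).trans hn)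
  exact hloc.differentiableOn (Eventually.of_forall fun m =>
    (A m).differentiable.differentiableOn) isOpen_ball

end Pool.Agent.V110.WI
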