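import Mathlib
import Pool.Agent.V110.WI.Seq

/-!
# The spaces `E^p(μ)` and norm estimates
-/

set_option autoImplicit false

open Filter Topology Set Metric Complex Polynomial MeasureTheory
open scoped Real ENNReal

namespace Pool.Agent.V110.WI

/-- `∫ |F(τ w)|^p dμ(w)` for the symmetric measure `dμ(s e^{iθ}) = (2π)⁻¹ dν(s) dθ` -/
noncomputable def Mpow (p : ℝ) (ν : Measure ℝ) (F : ℂ → ℂ) (τ : ℝ) : ℝ≥0∞ :=
  ∫⁻ s : ℝ, ((ENNReal.ofReal (2 * π))⁻¹ * (∫⁻ θ : ℝ in Ioc (0 : ℝ) (2 * π),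
    ENNReal.ofReal (‖F (τ * (s * Complex.exp (θ * Complex.I)))‖ ^ p))) ∂ν

/-- the norm of `E^p(μ)` -/
noncomputable def normE (p : ℝ) (ν : Measure ℝ) (F : ℂ → ℂ) : ℝ≥0∞ :=
  ⨆ τ ∈ Ico (0 : ℝ) 1, (Mpow p ν F τ) ^ (1 / p)

theorem Lv_zero : Lv 0 = 0 := rfl

theorem Lv_nonneg (k : ℕ) : 0 ≤ Lv k := by
  rw [← Lv_zero]; exact Lv_mono (Nat.zero_le k)

/-- the weights -/
noncomputable def wt (p : ℝ) (k : ℕ) : ℝ := (1 / 2) ^ (k + 1) * Real.exp (-(p * Lv (k + 1)))

theorem wt_pos (p : ℝ) (k : ℕ) : 0 < wt p k := by unfold wt; positivity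

/-- the radial measure -/
noncomputable def nu (p : ℝ) : Measure ℝ :=
  Measure.sum fun k : ℕ => ENNReal.ofReal (wt p k) • Measure.dirac (rad (k + 1))

theorem tsum_half : ∑' k : ℕ, ENNReal.ofReal ((1 / 2) ^ (k + 1)) = 1 := by
  rw [← ENNReal.ofReal_tsum_of_nonneg (fun k => by positivity)]
  · have h := tsum_geometric_two
    have h2 : ∑' k : ℕ, ((1 / 2 : ℝ)) ^ (k + 1) = 1 := by
      simp_rw [pow_succ]
      rw [tsum_mul_right, h]
      norm_num
    rw [h2, ENNReal.ofReal_one]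
  · exact (summable_nat_add_iff 1).2 summable_geometric_two

theorem Mpow_nu (p : ℝ) (F : ℂ → ℂ) (τ : ℝ) : Mpow p (nu p) F τ =
    ∑' k : ℕ, ENNReal.ofReal (wt p k) * ((ENNReal.ofReal (2 * π))⁻¹ *
      ∫⁻ θ in Ioc (0 : ℝ) (2 * π), ENNReal.ofReal (‖F (τ * (rad (k + 1) * ex θ))‖ ^ p)) := by
  unfold Mpow nu
  rw [lintegral_sum_measure]
  congr 1
  ext k
  rw [lintegral_smul_measure, lintegral_dirac, smul_eq_mul]
  rfl

theorem normE_le {p : ℝ} (hp : 1 ≤ p) {F : ℂ → ℂ} {C : ℝ} (hC : 0 ≤ C)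
    (h : ∀ k, ∀ z : ℂ, ‖z‖ ≤ rad (k + 1) → ‖F z‖ ≤ C * Real.exp (Lv (k + 1))) :
    normE p (nu p) F ≤ ENNReal.ofReal C := by
  have hp0 : 0 < p := by linarith
  have hpi := Real.pi_pos
  refine iSup₂_le fun τ hτ => ?_
  have h1 : Mpow p (nu p) F τ ≤ ENNReal.ofReal (C ^ p) := by
    rw [Mpow_nu]
    have h2 : ∀ k : ℕ, ENNReal.ofReal (wt p k) * ((ENNReal.ofReal (2 * π))⁻¹ *
        ∫⁻ θ in Ioc (0 : ℝ) (2 * π), ENNReal.ofReal (‖F (τ * (rad (k + 1) * ex θ))‖ ^ p)) ≤
        ENNReal.ofReal ((1 / 2) ^ (k + 1)) * ENNReal.ofReal (C ^ p) := by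
      intro k
      have h3 : ∫⁻ θ in Ioc (0 : ℝ) (2 * π),
          ENNReal.ofReal (‖F (τ * (rad (k + 1) * ex θ))‖ ^ p) ≤
          ENNReal.ofReal ((C * Real.exp (Lv (k + 1))) ^ p) * ENNReal.ofReal (2 * π) := by
        calc _ ≤ ∫⁻ _ in Ioc (0 : ℝ) (2 * π),
            ENNReal.ofReal ((C * Real.exp (Lv (k + 1))) ^ p) := by
              apply lintegral_mono
              intro θ
              apply ENNReal.ofReal_le_ofReal
              apply Real.rpow_le_rpow (norm_nonneg _) _ hp0.le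
              apply h
              rw [norm_mul, norm_mul, ex_norm, mul_one, Complex.norm_real, Complex.norm_real,
                Real.norm_of_nonneg hτ.1, Real.norm_of_nonneg (rad_pos _).le]
              have := rad_pos (k + 1)
              nlinarith [hτ.2]
          _ = _ := by
              rw [lintegral_const, Measure.restrict_apply_univ, Real.volume_Ioc, sub_zero]
      have h4 : (ENNReal.ofReal (2 * π))⁻¹ * (ENNReal.ofReal ((C * Real.exp (Lv (k + 1))) ^ p) *
          ENNReal.ofReal (2 * π)) = ENNReal.ofReal ((C * Real.exp (Lv (k + 1))) ^ p) := by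
        rw [mul_comm, mul_assoc, ENNReal.mul_inv_cancel, mul_one]
        · simpa using hpi
        · exact ENNReal.ofReal_ne_top
      calc _ ≤ ENNReal.ofReal (wt p k) * ENNReal.ofReal ((C * Real.exp (Lv (k + 1))) ^ p) := by
            rw [← h4]
            gcongr
        _ = _ := by
            rw [← ENNReal.ofReal_mul (wt_pos p k).le, ← ENNReal.ofReal_mul (by positivity)]
            congr 1
            unfold wt
            rw [Real.mul_rpow hC (Real.exp_pos _).le, ← Real.exp_mul]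
            have : Real.exp (-(p * Lv (k + 1))) * Real.exp (Lv (k + 1) * p) = 1 := by
              rw [← Real.exp_add]
              have : -(p * Lv (k + 1)) + Lv (k + 1) * p = 0 := by ring
              rw [this, Real.exp_zero]
            calc _ = (1 / 2) ^ (k + 1) * C ^ p *
                (Real.exp (-(p * Lv (k + 1))) * Real.exp (Lv (k + 1) * p)) := by ring
              _ = _ := by rw [this, mul_one]
    calc _ ≤ ∑' k : ℕ, ENNReal.ofReal ((1 / 2) ^ (k + 1)) * ENNReal.ofReal (C ^ p) :=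
          ENNReal.tsum_le_tsum h2
      _ = ENNReal.ofReal (C ^ p) := by rw [ENNReal.tsum_mul_right, tsum_half, one_mul]
  calc (Mpow p (nu p) F τ) ^ (1 / p) ≤ (ENNReal.ofReal (C ^ p)) ^ (1 / p) :=
        ENNReal.rpow_le_rpow h1 (by positivity)
    _ = ENNReal.ofReal C := by
        rw [← ENNReal.ofReal_rpow_of_nonneg hC hp0.le, ← ENNReal.rpow_mul,
          mul_one_div_cancel hp0.ne', ENNReal.rpow_one]

theorem young {p t l : ℝ} (hp : 1 ≤ p) (ht : 0 ≤ t) (hl : 0 < l) :
    t ≤ l + l ^ (1 - p) * t ^ p := by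
  rcases le_total t l with h | h
  · have : 0 ≤ l ^ (1 - p) * t ^ p := by positivity
    linarith
  · have ht0 : 0 < t := hl.trans_le h
    have h1 : t ^ (1 - p) ≤ l ^ (1 - p) := Real.rpow_le_rpow_of_nonpos hl h (by linarith)
    have h2 : t ^ (1 - p) * t ^ p = t := by
      rw [← Real.rpow_add ht0]
      have : 1 - p + p = 1 := by ring
      rw [this, Real.rpow_one]
    have h3 : t ^ (1 - p) * t ^ p ≤ l ^ (1 - p) * t ^ p :=
      mul_le_mul_of_nonneg_right h1 (by positivity)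
    linarith

/-- the circle means are controlled by the norm -/
theorem mean_le {p : ℝ} (hp : 1 ≤ p) {F : ℂ → ℂ} (hF : ContinuousOn F (ball 0 1)) {c : ℝ}
    (hc : 0 < c) (h : normE p (nu p) F ≤ ENNReal.ofReal c) (k : ℕ) :
    ∫ θ in (0 : ℝ)..(2 * π), ‖F (rad (k + 1) * ex θ)‖ ≤
      4 * π * (c * 2 ^ (k + 1) * Real.exp (Lv (k + 1))) := by
  have hp0 : 0 < p := by linarith
  have hpi := Real.pi_pos
  set r := rad (k + 1) with hr
  have hr0 : 0 < r := rad_pos _
  have hr1 : r < 1 := rad_lt_one _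
  set l : ℝ := c * 2 ^ (k + 1) * Real.exp (Lv (k + 1)) with hl
  have hl0 : 0 < l := by positivity
  have hmem : ∀ τ ∈ Icc (0 : ℝ) 1, ∀ θ : ℝ, ((τ : ℂ) * (r * ex θ)) ∈ closedBall (0 : ℂ) r := by
    intro τ hτ θ
    rw [mem_closedBall, dist_zero_right, norm_mul, norm_mul, ex_norm, mul_one, Complex.norm_real,
      Complex.norm_real, Real.norm_of_nonneg hτ.1, Real.norm_of_nonneg hr0.le]
    nlinarith [hτ.2]
  have hsub : closedBall (0 : ℂ) r ⊆ ball 0 1 := closedBall_subset_ball hr1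
  have hcont : ∀ τ ∈ Icc (0 : ℝ) 1, Continuous fun θ : ℝ => F (τ * (r * ex θ)) := by
    intro τ hτ
    have h1 : Continuous fun θ : ℝ => ((τ : ℂ) * (r * ex θ)) := by
      have := ex_cont
      fun_prop
    exact hF.comp_continuous h1 fun θ => hsub (hmem τ hτ θ)
  -- the estimate for `τ < 1`
  have key : ∀ τ ∈ Ico (0 : ℝ) 1, ∫ θ in (0 : ℝ)..(2 * π), ‖F (τ * (r * ex θ))‖ ≤ 4 * π * l := by
    intro τ hτ
    have hτ' : τ ∈ Icc (0 : ℝ) 1 := ⟨hτ.1, hτ.2.le⟩
    have h1 : (Mpow p (nu p) F τ) ^ (1 / p) ≤ ENNReal.ofReal c :=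
      (le_iSup₂ (f := fun τ (_ : τ ∈ Ico (0 : ℝ) 1) => (Mpow p (nu p) F τ) ^ (1 / p)) τ hτ).trans h
    have h2 : Mpow p (nu p) F τ ≤ ENNReal.ofReal (c ^ p) := by
      have := ENNReal.rpow_le_rpow h1 hp0.le
      rwa [← ENNReal.rpow_mul, one_div_mul_cancel hp0.ne', ENNReal.rpow_one,
        ENNReal.ofReal_rpow_of_nonneg hc.le hp0.le] at this
    rw [Mpow_nu] at h2
    have h3 := (ENNReal.le_tsum k).trans h2
    have hcp : Continuous fun θ : ℝ => ‖F (τ * (r * ex θ))‖ ^ p :=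
      (hcont τ hτ').norm.rpow_const fun θ => Or.inr hp0.le
    have h4 : ∫⁻ θ in Ioc (0 : ℝ) (2 * π), ENNReal.ofReal (‖F (τ * (r * ex θ))‖ ^ p) =
        ENNReal.ofReal (∫ θ in (0 : ℝ)..(2 * π), ‖F (τ * (r * ex θ))‖ ^ p) := by
      rw [intervalIntegral.integral_of_le (by positivity), ofReal_integral_eq_lintegral_ofReal]
      · exact (hcp.intervalIntegrable _ _).1
      · exact Eventually.of_forall fun θ => by positivity
    have hI0 : 0 ≤ ∫ θ in (0 : ℝ)..(2 * π), ‖F (τ * (r * ex θ))‖ ^ p :=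
      intervalIntegral.integral_nonneg (by positivity) fun θ _ => by positivity
    rw [h4, ← ENNReal.ofReal_inv_of_pos (by positivity), ← ENNReal.ofReal_mul (by positivity),
      ← ENNReal.ofReal_mul (wt_pos p k).le, ENNReal.ofReal_le_ofReal_iff (by positivity)] at h3
    -- `I ≤ 2π l ^ p`
    have h5 : ∫ θ in (0 : ℝ)..(2 * π), ‖F (τ * (r * ex θ))‖ ^ p ≤ 2 * π * l ^ p := by
      have e1 : (∫ θ in (0 : ℝ)..(2 * π), ‖F (τ * (r * ex θ))‖ ^ p) =
          2 * π * (wt p k)⁻¹ * (wt p k * ((2 * π)⁻¹ *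
            ∫ θ in (0 : ℝ)..(2 * π), ‖F (τ * (r * ex θ))‖ ^ p)) := by
        have := (wt_pos p k).ne'
        field_simp
      have e2 : (wt p k)⁻¹ * c ^ p ≤ l ^ p := by
        have e3 : (wt p k)⁻¹ = 2 ^ (k + 1) * Real.exp (p * Lv (k + 1)) := by
          unfold wt
          rw [mul_inv, Real.exp_neg, inv_inv, one_div, inv_pow, inv_inv]
        have e4 : l ^ p = c ^ p * ((2 : ℝ) ^ (k + 1)) ^ p * Real.exp (p * Lv (k + 1)) := by
          rw [hl, Real.mul_rpow (by positivity) (by positivity),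
            Real.mul_rpow (by positivity) (by positivity), ← Real.exp_mul, mul_comm (Lv (k + 1)) p]
        have e5 : (2 : ℝ) ^ (k + 1) ≤ ((2 : ℝ) ^ (k + 1)) ^ p := by
          have : (1 : ℝ) ≤ 2 ^ (k + 1) := one_le_pow₀ (by norm_num)
          exact Real.self_le_rpow_of_one_le this hp
        rw [e3, e4]
        have e6 : 0 ≤ c ^ p * Real.exp (p * Lv (k + 1)) := by positivity
        calc 2 ^ (k + 1) * Real.exp (p * Lv (k + 1)) * c ^ p
            = 2 ^ (k + 1) * (c ^ p * Real.exp (p * Lv (k + 1))) := by ring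
          _ ≤ ((2 : ℝ) ^ (k + 1)) ^ p * (c ^ p * Real.exp (p * Lv (k + 1))) :=
              mul_le_mul_of_nonneg_right e5 e6
          _ = _ := by ring
      rw [e1]
      calc _ ≤ 2 * π * (wt p k)⁻¹ * c ^ p := by
            apply mul_le_mul_of_nonneg_left h3
            have := wt_pos p k
            positivity
        _ = 2 * π * ((wt p k)⁻¹ * c ^ p) := by ring
        _ ≤ _ := by gcongr
    have h6 : ∫ θ in (0 : ℝ)..(2 * π), ‖F (τ * (r * ex θ))‖ ≤
        ∫ θ in (0 : ℝ)..(2 * π), (l + l ^ (1 - p) * ‖F (τ * (r * ex θ))‖ ^ p) := by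
      apply intervalIntegral.integral_mono_on (by positivity)
      · exact (hcont τ hτ').norm.intervalIntegrable _ _
      · exact (continuous_const.add (continuous_const.mul hcp)).intervalIntegrable _ _
      · intro θ _
        exact young hp (norm_nonneg _) hl0
    refine h6.trans ?_
    have hia : IntervalIntegrable (fun _ : ℝ => l) volume 0 (2 * π) :=
      continuous_const.intervalIntegrable _ _
    have hib : IntervalIntegrable (fun θ : ℝ => l ^ (1 - p) * ‖F (τ * (r * ex θ))‖ ^ p)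
      volume 0 (2 * π) := (continuous_const.mul hcp).intervalIntegrable _ _
    rw [intervalIntegral.integral_add hia hib, intervalIntegral.integral_const,
      intervalIntegral.integral_const_mul, sub_zero, smul_eq_mul]
    have h7 : l ^ (1 - p) * l ^ p = l := by
      rw [← Real.rpow_add hl0]
      have : 1 - p + p = 1 := by ring
      rw [this, Real.rpow_one]
    have h8 : l ^ (1 - p) * ∫ θ in (0 : ℝ)..(2 * π), ‖F (τ * (r * ex θ))‖ ^ p ≤
        l ^ (1 - p) * (2 * π * l ^ p) := mul_le_mul_of_nonneg_left h5 (by positivity)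
    have h9 : l ^ (1 - p) * (2 * π * l ^ p) = 2 * π * l := by
      calc _ = 2 * π * (l ^ (1 - p) * l ^ p) := by ring
        _ = _ := by rw [h7]
    linarith
  -- the limit
  obtain ⟨B, hB⟩ := (isCompact_closedBall (0 : ℂ) r).exists_bound_of_continuousOn
    (hF.mono hsub)
  set τn : ℕ → ℝ := fun n => 1 - 1 / ((n : ℝ) + 1) with hτn
  have hτm : ∀ n, τn n ∈ Ico (0 : ℝ) 1 := by
    intro n
    have h1 : (0 : ℝ) < 1 / ((n : ℝ) + 1) := by positivity
    have h2 : 1 / ((n : ℝ) + 1) ≤ 1 := by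
      rw [div_le_one (by positivity)]
      have : (0 : ℝ) ≤ n := Nat.cast_nonneg n
      linarith
    exact ⟨by simp only [hτn]; linarith, by simp only [hτn]; linarith⟩
  have hτt : Tendsto τn atTop (𝓝 1) := by
    have := tendsto_one_div_add_atTop_nhds_zero_nat (𝕜 := ℝ)
    have h1 := this.const_sub 1
    rwa [sub_zero] at h1
  have hlim : Tendsto (fun n => ∫ θ in (0 : ℝ)..(2 * π), ‖F (τn n * (r * ex θ))‖) atTop
      (𝓝 (∫ θ in (0 : ℝ)..(2 * π), ‖F (r * ex θ)‖)) := by
    apply intervalIntegral.tendsto_integral_filter_of_dominated_convergence (fun _ => B)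
    · exact Eventually.of_forall fun n =>
        (hcont _ ⟨(hτm n).1, (hτm n).2.le⟩).norm.aestronglyMeasurable
    · exact Eventually.of_forall fun n => Eventually.of_forall fun θ _ => by
        rw [norm_norm]
        exact hB _ (hmem _ ⟨(hτm n).1, (hτm n).2.le⟩ θ)
    · simp
    · refine Eventually.of_forall fun θ _ => ?_
      have h1 : ContinuousAt F (r * ex θ) := by
        refine hF.continuousAt (isOpen_ball.mem_nhds (hsub ?_))
        have := hmem 1 ⟨zero_le_one, le_rfl⟩ θ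
        rwa [Complex.ofReal_one, one_mul] at this
      have h2 : Tendsto (fun n => ((τn n : ℂ) * (r * ex θ))) atTop (𝓝 (r * ex θ)) := by
        have := ((Complex.continuous_ofReal.tendsto 1).comp hτt).mul_const (r * ex θ)
        simpa using this
      exact (h1.tendsto.comp h2).norm
  exact le_of_tendsto' hlim fun n => key _ (hτm n)

end Pool.Agent.V110.WI
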