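import Mathlib
import Pool.Agent.V110.WI.Norm

/-!
# `g` is weakly invertible and `g²` is not
-/

set_option autoImplicit false

open Filter Topology Set Metric Complex Polynomial MeasureTheory
open scoped Real ENNReal

namespace Pool.Agent.V110.WI

/-- Cauchy's estimate with the mean over a circle -/
theorem cauchy {F : ℂ → ℂ} (hF : DifferentiableOn ℂ F (ball 0 1)) {s r : ℝ} (hs : 0 ≤ s)
    (hsr : s < r) (hr : r < 1) {z : ℂ} (hz : ‖z‖ ≤ s) :
    ‖F z‖ ≤ (r / (r - s)) * ((2 * π)⁻¹ * ∫ θ in (0 : ℝ)..(2 * π), ‖F (r * ex θ)‖) := by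
  have hpi := Real.pi_pos
  have hr0 : 0 < r := by linarith
  have hsub : closedBall (0 : ℂ) r ⊆ ball 0 1 := closedBall_subset_ball hr
  have hd : DiffContOnCl ℂ F (ball 0 r) := by
    apply DifferentiableOn.diffContOnCl
    rw [closure_ball _ hr0.ne']
    exact hF.mono hsub
  have hzb : z ∈ ball (0 : ℂ) r := by
    rw [mem_ball, dist_zero_right]; linarith
  have h1 := hd.two_pi_i_inv_smul_circleIntegral_sub_inv_smul hzb
  have hcirc : ∀ θ : ℝ, circleMap 0 r θ = r * ex θ := by
    intro θ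
    simp [circleMap, ex]
  have hmem : ∀ θ : ℝ, (r * ex θ : ℂ) ∈ closedBall (0 : ℂ) r := by
    intro θ
    rw [mem_closedBall, dist_zero_right, norm_mul, ex_norm, mul_one, Complex.norm_real,
      Real.norm_of_nonneg hr0.le]
  have hFc : Continuous fun θ : ℝ => F (r * ex θ) := by
    have h2 : Continuous fun θ : ℝ => (r * ex θ : ℂ) := by
      have := ex_cont
      fun_prop
    exact hF.continuousOn.comp_continuous h2 fun θ => hsub (hmem θ)
  have h2 : ‖∮ w in C(0, r), (w - z)⁻¹ • F w‖ ≤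
      ∫ θ in (0 : ℝ)..(2 * π), (r / (r - s)) * ‖F (r * ex θ)‖ := by
    rw [circleIntegral]
    refine intervalIntegral.norm_integral_le_of_norm_le (by positivity)
      (Eventually.of_forall fun θ _ => ?_) ?_
    · rw [norm_smul, norm_smul, deriv_circleMap, norm_mul, Complex.norm_I, mul_one,
        norm_circleMap_zero, abs_of_pos hr0, hcirc, norm_inv]
      have h3 : r - s ≤ ‖r * ex θ - z‖ := by
        have := norm_sub_norm_le (r * ex θ : ℂ) z
        rw [norm_mul, ex_norm, mul_one, Complex.norm_real, Real.norm_of_nonneg hr0.le] at this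
        linarith
      have h4 : ‖r * ex θ - z‖⁻¹ ≤ (r - s)⁻¹ := by
        apply inv_anti₀ (by linarith) h3
      calc r * (‖r * ex θ - z‖⁻¹ * ‖F (r * ex θ)‖) ≤ r * ((r - s)⁻¹ * ‖F (r * ex θ)‖) := by
            gcongr
        _ = _ := by ring
    · exact (continuous_const.mul hFc.norm).intervalIntegrable _ _
  rw [intervalIntegral.integral_const_mul] at h2
  rw [← h1, norm_smul]
  have h5 : ‖(2 * (π : ℂ) * Complex.I)⁻¹‖ = (2 * π)⁻¹ := by
    rw [norm_inv, norm_mul, norm_mul, Complex.norm_I, mul_one, Complex.norm_ofNat,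
      Complex.norm_real, Real.norm_of_nonneg hpi.le]
  rw [h5]
  calc (2 * π)⁻¹ * ‖∮ w in C(0, r), (w - z)⁻¹ • F w‖
      ≤ (2 * π)⁻¹ * (r / (r - s) * ∫ θ in (0 : ℝ)..(2 * π), ‖F (r * ex θ)‖) := by
        gcongr
    _ = _ := by ring

theorem cauchy_rad {F : ℂ → ℂ} (hF : DifferentiableOn ℂ F (ball 0 1)) (k : ℕ) {z : ℂ}
    (hz : ‖z‖ ≤ rad k) :
    ‖F z‖ ≤ 2 ^ (k + 2) * ((2 * π)⁻¹ * ∫ θ in (0 : ℝ)..(2 * π), ‖F (rad (k + 1) * ex θ)‖) := by
  have hpi := Real.pi_pos
  refine (cauchy hF (rad_pos k).le (rad_lt_succ k) (rad_lt_one _) hz).trans ?_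
  apply mul_le_mul_of_nonneg_right
  · rw [rad_sub, div_le_iff₀ (by positivity), one_div, inv_pow,
      mul_inv_cancel₀ (by positivity)]
    exact (rad_lt_one _).le
  · have : 0 ≤ ∫ θ in (0 : ℝ)..(2 * π), ‖F (rad (k + 1) * ex θ)‖ :=
      intervalIntegral.integral_nonneg (by positivity) fun θ _ => norm_nonneg _
    positivity

theorem re_A_le (k : ℕ) {z : ℂ} (hz : ‖z‖ ≤ rad (k + 1)) :
    ((A (k + 1)).eval z).re ≤ Lv (k + 1) := by
  have hr := rad_pos (k + 1)
  have hd : DiffContOnCl ℂ (fun w => Complex.exp ((A (k + 1)).eval w)) (ball 0 (rad (k + 1))) :=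
    (((A (k + 1)).differentiable).cexp).diffContOnCl
  have h1 := Complex.norm_le_of_forall_mem_frontier_norm_le (C := Real.exp (Lv (k + 1)))
    isBounded_ball hd (fun w hw => by
      rw [frontier_ball _ hr.ne'] at hw
      rw [Complex.norm_exp]
      exact Real.exp_le_exp.2 (A_re k (by simpa using hw)))
    (z := z) (by rw [closure_ball _ hr.ne', mem_closedBall, dist_zero_right]; exact hz)
  rw [Complex.norm_exp] at h1
  exact Real.exp_le_exp.1 h1

/-- weak invertibility in `E^p(μ)` -/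
def WeaklyInvertible (p : ℝ) (ν : Measure ℝ) (f : ℂ → ℂ) : Prop :=
  ∃ q : ℕ → ℂ[X], Tendsto (fun n => normE p ν fun z => (q n).eval z * f z - 1) atTop (𝓝 0)

section

variable {U : ℂ → ℂ} (hU : DifferentiableOn ℂ U (ball 0 1))
  (hUA : ∀ k, ∀ z : ℂ, ‖z‖ ≤ rad k → ‖U z - (A k).eval z‖ ≤ (1 / 2) ^ k)

include hUA in
theorem re_U_le (k : ℕ) {z : ℂ} (hz : ‖z‖ ≤ rad (k + 1)) : (U z).re ≤ Lv (k + 1) + 1 := by
  have h1 := hUA (k + 1) z hz
  have h2 := Complex.re_le_norm (U z - (A (k + 1)).eval z)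
  rw [Complex.sub_re] at h2
  have h3 := re_A_le k hz
  have h4 : ((1 : ℝ) / 2) ^ (k + 1) ≤ 1 := pow_le_one₀ (by norm_num) (by norm_num)
  linarith

include hUA in
theorem g_mem {p : ℝ} (hp : 1 ≤ p) : normE p (nu p) (fun z => Complex.exp (U z / 2)) < ⊤ := by
  refine lt_of_le_of_lt (normE_le hp (C := Real.exp 1) (Real.exp_pos _).le fun k z hz => ?_)
    ENNReal.ofReal_lt_top
  rw [Complex.norm_exp, ← Real.exp_add]
  apply Real.exp_le_exp.2
  have h1 := re_U_le hUA k hz
  have h2 := Lv_nonneg (k + 1)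
  have h3 : (U z / 2).re = (U z).re / 2 := by
    rw [show (2 : ℂ) = ((2 : ℝ) : ℂ) by norm_num, Complex.div_ofReal_re]
  rw [h3]
  linarith

include hUA in
theorem f_mem {p : ℝ} (hp : 1 ≤ p) : normE p (nu p) (fun z => Complex.exp (U z)) < ⊤ := by
  refine lt_of_le_of_lt (normE_le hp (C := Real.exp 1) (Real.exp_pos _).le fun k z hz => ?_)
    ENNReal.ofReal_lt_top
  rw [Complex.norm_exp, ← Real.exp_add]
  apply Real.exp_le_exp.2
  have h1 := re_U_le hUA k hz
  linarith

theorem half_pow_le (j : ℕ) : ((1 : ℝ) / 2) ^ j ≤ Real.exp (-(j : ℝ) / 2) := by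
  have h1 : (1 : ℝ) / 2 ≤ Real.exp (-(1 / 2)) := by
    have := Real.add_one_le_exp (-(1 / 2 : ℝ))
    linarith
  have h2 : Real.exp (-(j : ℝ) / 2) = Real.exp (-(1 / 2)) ^ j := by
    rw [← Real.exp_nat_mul]; congr 1; ring
  rw [h2]
  exact pow_le_pow_left₀ (by norm_num) h1 j

theorem exists_poly (j : ℕ) : ∃ q : ℂ[X], ∀ z : ℂ, ‖z‖ ≤ 1 →
    ‖q.eval z - Complex.exp (-((A j).eval z / 2))‖ ≤ (1 / 2) ^ j := by
  have hc : IsConnected (closedBall (0 : ℂ) 1)ᶜ := by
    constructor
    · refine ⟨2, ?_⟩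
      rw [mem_compl_iff, mem_closedBall, dist_zero_right, Complex.norm_ofNat]
      norm_num
    · have h1 : (closedBall (0 : ℂ) 1)ᶜ = {z : ℂ | ‖z‖ ∈ Ioi (1 : ℝ)} := by
        ext z
        simp only [mem_compl_iff, mem_closedBall, dist_zero_right, not_le]
        rfl
      rw [h1]
      exact SP.ring_preconnected isPreconnected_Ioi fun x hx => lt_trans zero_lt_one hx
  obtain ⟨q, hq⟩ := ZFM.J_r3.runge (isCompact_closedBall (0 : ℂ) 1) hc isOpen_univ
    (subset_univ _) (fun z => Complex.exp (-((A j).eval z / 2)))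
    (((A j).differentiable.div_const 2).neg.cexp).differentiableOn ((1 / 2) ^ j) (by positivity)
  refine ⟨q, fun z hz => ?_⟩
  have := hq z (by rw [mem_closedBall, dist_zero_right]; exact hz)
  rw [norm_sub_rev]
  exact this.le

include hUA in
theorem g_wi {p : ℝ} (hp : 1 ≤ p) :
    WeaklyInvertible p (nu p) (fun z => Complex.exp (U z / 2)) := by
  choose q hq using exists_poly
  refine ⟨q, ?_⟩
  have hbound : ∀ j, normE p (nu p) (fun z => (q j).eval z * Complex.exp (U z / 2) - 1) ≤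
      ENNReal.ofReal (6 * Real.exp (-(j : ℝ) / 2)) := by
    intro j
    refine normE_le hp (by positivity) fun k z hz => ?_
    have hz1 : ‖z‖ ≤ 1 := hz.trans (rad_lt_one _).le
    have hL := Lv_nonneg (k + 1)
    have hL1 : 1 ≤ Real.exp (Lv (k + 1)) := Real.one_le_exp hL
    have hj0 : (0 : ℝ) ≤ j := Nat.cast_nonneg j
    have hej : 0 < Real.exp (-(j : ℝ) / 2) := Real.exp_pos _
    have hre2 : ∀ w : ℂ, (w / 2).re = w.re / 2 := fun w => by
      rw [show (2 : ℂ) = ((2 : ℝ) : ℂ) by norm_num, Complex.div_ofReal_re]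
    have hg : ‖Complex.exp (U z / 2)‖ ≤ 3 * Real.exp (Lv (k + 1)) := by
      rw [Complex.norm_exp, hre2]
      have h1 := re_U_le hUA k hz
      have h2 : Real.exp ((U z).re / 2) ≤ Real.exp 1 * Real.exp (Lv (k + 1)) := by
        rw [← Real.exp_add]
        apply Real.exp_le_exp.2
        linarith
      have h3 := Real.exp_one_lt_three
      nlinarith [Real.exp_pos (Lv (k + 1))]
    have e1 : (q j).eval z * Complex.exp (U z / 2) - 1 =
        ((q j).eval z - Complex.exp (-((A j).eval z / 2))) * Complex.exp (U z / 2) +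
        (Complex.exp ((U z - (A j).eval z) / 2) - 1) := by
      have : Complex.exp ((U z - (A j).eval z) / 2) =
          Complex.exp (-((A j).eval z / 2)) * Complex.exp (U z / 2) := by
        rw [← Complex.exp_add]; congr 1; ring
      rw [this]; ring
    have h1 : ‖((q j).eval z - Complex.exp (-((A j).eval z / 2))) * Complex.exp (U z / 2)‖ ≤
        Real.exp (-(j : ℝ) / 2) * (3 * Real.exp (Lv (k + 1))) := by
      rw [norm_mul]
      exact mul_le_mul ((hq j z hz1).trans (half_pow_le j)) hg (norm_nonneg _) hej.le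
    have h2 : ‖Complex.exp ((U z - (A j).eval z) / 2) - 1‖ ≤
        2 * Real.exp (-(j : ℝ) / 2) * Real.exp (Lv (k + 1)) := by
      rcases le_or_gt (k + 1) j with hkj | hkj
      · -- the inner circles
        have h3 := hUA j z (hz.trans (rad_mono.monotone hkj))
        have h4 : ‖(U z - (A j).eval z) / 2‖ ≤ (1 / 2) ^ j / 2 := by
          rw [norm_div, Complex.norm_ofNat]
          linarith
        have h5 : ((1 : ℝ) / 2) ^ j ≤ 1 := pow_le_one₀ (by norm_num) (by norm_num)
        have h6 := Complex.norm_exp_sub_one_le (x := (U z - (A j).eval z) / 2) (by linarith)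
        have h7 := half_pow_le j
        nlinarith
      · -- the outer circles
        have h3 := A_bound hkj hz1
        have h4 := re_U_le hUA k hz
        have h5 : ‖Complex.exp ((U z - (A j).eval z) / 2)‖ ≤
            Real.exp (-(j : ℝ) / 2) * Real.exp (Lv (k + 1)) := by
          rw [Complex.norm_exp, hre2, Complex.sub_re, ← Real.exp_add]
          apply Real.exp_le_exp.2
          have h6 := Complex.abs_re_le_norm ((A j).eval z)
          have h7 := neg_abs_le ((A j).eval z).re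
          linarith
        have h8 : (1 : ℝ) ≤ Real.exp (-(j : ℝ) / 2) * Real.exp (Lv (k + 1)) := by
          rw [← Real.exp_add]
          apply Real.one_le_exp
          have := norm_nonneg ((A j).eval z)
          linarith
        refine (norm_sub_le _ _).trans ?_
        rw [norm_one]
        linarith
    rw [e1]
    refine (norm_add_le _ _).trans ?_
    have h9 : 0 < Real.exp (-(j : ℝ) / 2) * Real.exp (Lv (k + 1)) := by positivity
    nlinarith
  refine tendsto_of_tendsto_of_tendsto_of_le_of_le tendsto_const_nhds ?_ (fun _ => bot_le) hbound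
  have h1 : Tendsto (fun j : ℕ => 6 * Real.exp (-(j : ℝ) / 2)) atTop (𝓝 0) := by
    have h2 : Tendsto (fun j : ℕ => Real.exp (-(j : ℝ) / 2)) atTop (𝓝 0) := by
      have h3 : Tendsto (fun j : ℕ => (Real.exp (-(1 / 2))) ^ j) atTop (𝓝 0) :=
        tendsto_pow_atTop_nhds_zero_of_lt_one (Real.exp_pos _).le
          (Real.exp_lt_one_iff.2 (by norm_num))
      refine h3.congr fun j => ?_
      rw [← Real.exp_nat_mul]; congr 1; ring
    simpa using h2.const_mul 6
  have := ENNReal.tendsto_ofReal h1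
  rwa [ENNReal.ofReal_zero] at this

include hU hUA in
/-- polynomials `q` with `‖q f - 1‖ ≤ 1` are bounded at `-1/2` -/
theorem q_bound {p : ℝ} (hp : 1 ≤ p) {q : ℂ[X]}
    (h : normE p (nu p) (fun z => q.eval z * Complex.exp (U z) - 1) ≤ ENNReal.ofReal 1) :
    ‖q.eval (-(1 / 2))‖ ≤ 32 * Real.exp 2 := by
  have hpi := Real.pi_pos
  have hqd : DifferentiableOn ℂ (fun z => q.eval z) (ball 0 1) :=
    q.differentiable.differentiableOn
  have hfd : DifferentiableOn ℂ (fun z => Complex.exp (U z)) (ball 0 1) := hU.cexp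
  have hFd : DifferentiableOn ℂ (fun z => q.eval z * Complex.exp (U z) - 1) (ball 0 1) :=
    (hqd.mul hfd).sub (differentiableOn_const _)
  obtain ⟨B, hB⟩ := (isCompact_closedBall (0 : ℂ) 1).exists_bound_of_continuousOn
    (f := fun z => q.eval z) (Polynomial.continuous _).continuousOn
  have hB0 : 0 ≤ B := le_trans (norm_nonneg _) (hB 0 (by simp))
  -- the recursive estimate
  have hrec : ∀ k, ∀ β : ℝ, 0 ≤ β → (∀ z : ℂ, ‖z‖ ≤ rad (k + 1) → ‖q.eval z‖ ≤ β) →
      ∀ z : ℂ, ‖z‖ ≤ rad k → ‖q.eval z‖ ≤ 24 * Real.exp 2 * 4 ^ k + β / 16 := by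
    intro k β hβ hq z hz
    have h1 := cauchy_rad hqd k hz
    set r := rad (k + 1) with hr
    have hr0 : 0 < r := rad_pos _
    have hr1 : r < 1 := rad_lt_one _
    have hmem : ∀ θ : ℝ, (r * ex θ : ℂ) ∈ closedBall (0 : ℂ) r := by
      intro θ
      rw [mem_closedBall, dist_zero_right, norm_mul, ex_norm, mul_one, Complex.norm_real,
        Real.norm_of_nonneg hr0.le]
    have hsub : closedBall (0 : ℂ) r ⊆ ball 0 1 := closedBall_subset_ball hr1
    have hcr : Continuous fun θ : ℝ => (r * ex θ : ℂ) := by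
      have := ex_cont
      fun_prop
    have hFc : Continuous fun θ : ℝ => q.eval (r * ex θ) * Complex.exp (U (r * ex θ)) - 1 :=
      hFd.continuousOn.comp_continuous hcr fun θ => hsub (hmem θ)
    have hfc : Continuous fun θ : ℝ => Complex.exp (U (r * ex θ)) :=
      hfd.continuousOn.comp_continuous hcr fun θ => hsub (hmem θ)
    have hqc : Continuous fun θ : ℝ => q.eval (r * ex θ) := q.continuous.comp hcr
    have h2 := mean_le hp hFd.continuousOn one_pos h k
    rw [← hr] at h2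
    have hL := Lv_nonneg (k + 1)
    have hL1 : 1 ≤ Real.exp (Lv (k + 1)) := Real.one_le_exp hL
    have h3 : ∫ θ in (0 : ℝ)..(2 * π), ‖q.eval (r * ex θ) * Complex.exp (U (r * ex θ))‖ ≤
        6 * π * (2 ^ (k + 1) * Real.exp (Lv (k + 1))) := by
      have h4 : ∫ θ in (0 : ℝ)..(2 * π), ‖q.eval (r * ex θ) * Complex.exp (U (r * ex θ))‖ ≤
          ∫ θ in (0 : ℝ)..(2 * π),
            (‖q.eval (r * ex θ) * Complex.exp (U (r * ex θ)) - 1‖ + 1) := by
        apply intervalIntegral.integral_mono_on (by positivity)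
        · exact (hqc.mul hfc).norm.intervalIntegrable _ _
        · exact (hFc.norm.add continuous_const).intervalIntegrable _ _
        · intro θ _
          have := norm_add_le (q.eval (r * ex θ) * Complex.exp (U (r * ex θ)) - 1) 1
          rw [sub_add_cancel, norm_one] at this
          exact this
      have hia : IntervalIntegrable (fun θ : ℝ =>
        ‖q.eval (r * ex θ) * Complex.exp (U (r * ex θ)) - 1‖) volume 0 (2 * π) :=
        hFc.norm.intervalIntegrable _ _
      have hib : IntervalIntegrable (fun _ : ℝ => (1 : ℝ)) volume 0 (2 * π) :=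
        continuous_const.intervalIntegrable _ _
      rw [intervalIntegral.integral_add hia hib, intervalIntegral.integral_const, sub_zero,
        smul_eq_mul, mul_one] at h4
      have h5 : (1 : ℝ) ≤ 2 ^ (k + 1) * Real.exp (Lv (k + 1)) := by
        have : (1 : ℝ) ≤ 2 ^ (k + 1) := one_le_pow₀ (by norm_num)
        nlinarith
      have h6 : 2 * π ≤ 2 * π * (2 ^ (k + 1) * Real.exp (Lv (k + 1))) := by nlinarith
      rw [one_mul] at h2
      linarith
    -- pointwise estimate
    set χ : ℝ → ℝ := fun θ =>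
      if ((A (k + 1)).eval (rad (k + 1) * ex θ)).re < Lv (k + 1) - 1 then (1 : ℝ) else 0 with hχ
    have hχi : IntervalIntegrable χ volume 0 (2 * π) := by
      rw [intervalIntegrable_iff, uIoc_of_le (by positivity)]
      have hcA : Continuous fun θ : ℝ => ((A (k + 1)).eval (rad (k + 1) * ex θ)).re := by
        have h1 := (A (k + 1)).continuous
        exact Complex.continuous_re.comp (h1.comp hcr)
      refine Measure.integrableOn_of_bounded (M := 1) measure_Ioc_lt_top.ne
        (Measurable.ite (isOpen_lt hcA continuous_const).measurableSet measurable_const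
          measurable_const).aestronglyMeasurable (Eventually.of_forall fun θ => ?_)
      simp only [hχ]
      split_ifs <;> simp
    have h7 : ∀ θ : ℝ, ‖q.eval (r * ex θ)‖ ≤ Real.exp (2 - Lv (k + 1)) *
        ‖q.eval (r * ex θ) * Complex.exp (U (r * ex θ))‖ + β * χ θ := by
      intro θ
      have hzr : ‖(r * ex θ : ℂ)‖ ≤ rad (k + 1) := by simpa using hmem θ
      by_cases hbad : ((A (k + 1)).eval (rad (k + 1) * ex θ)).re < Lv (k + 1) - 1
      · have e1 : χ θ = 1 := if_pos hbad
        rw [e1, mul_one]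
        have h8 := hq _ hzr
        have h9 : 0 ≤ Real.exp (2 - Lv (k + 1)) *
          ‖q.eval (r * ex θ) * Complex.exp (U (r * ex θ))‖ := by positivity
        linarith
      · have e1 : χ θ = 0 := if_neg hbad
        rw [e1, mul_zero, add_zero, norm_mul, Complex.norm_exp]
        rw [not_lt] at hbad
        have h8 := hUA (k + 1) _ hzr
        have h9 := Complex.abs_re_le_norm (U (r * ex θ) - (A (k + 1)).eval (r * ex θ))
        rw [Complex.sub_re] at h9
        have h10 := neg_abs_le ((U (r * ex θ)).re - ((A (k + 1)).eval (r * ex θ)).re)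
        have h11 : ((1 : ℝ) / 2) ^ (k + 1) ≤ 1 := pow_le_one₀ (by norm_num) (by norm_num)
        have h12 : 1 ≤ Real.exp (2 - Lv (k + 1)) * Real.exp (U (r * ex θ)).re := by
          rw [← Real.exp_add]
          apply Real.one_le_exp
          linarith
        calc ‖q.eval (r * ex θ)‖ = ‖q.eval (r * ex θ)‖ * 1 := (mul_one _).symm
          _ ≤ ‖q.eval (r * ex θ)‖ * (Real.exp (2 - Lv (k + 1)) * Real.exp (U (r * ex θ)).re) :=
              mul_le_mul_of_nonneg_left h12 (norm_nonneg _)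
          _ = _ := by ring
    have h8 : ∫ θ in (0 : ℝ)..(2 * π), ‖q.eval (r * ex θ)‖ ≤
        ∫ θ in (0 : ℝ)..(2 * π), (Real.exp (2 - Lv (k + 1)) *
          ‖q.eval (r * ex θ) * Complex.exp (U (r * ex θ))‖ + β * χ θ) := by
      apply intervalIntegral.integral_mono_on (by positivity)
      · exact hqc.norm.intervalIntegrable _ _
      · exact ((continuous_const.mul (hqc.mul hfc).norm).intervalIntegrable _ _).add
          (hχi.const_mul β)
      · intro θ _
        exact h7 θ
    have hic : IntervalIntegrable (fun θ : ℝ => Real.exp (2 - Lv (k + 1)) *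
        ‖q.eval (r * ex θ) * Complex.exp (U (r * ex θ))‖) volume 0 (2 * π) :=
      (continuous_const.mul (hqc.mul hfc).norm).intervalIntegrable _ _
    have hid : IntervalIntegrable (fun θ : ℝ => β * χ θ) volume 0 (2 * π) := hχi.const_mul β
    rw [intervalIntegral.integral_add hic hid, intervalIntegral.integral_const_mul,
      intervalIntegral.integral_const_mul] at h8
    have h9 : ∫ θ in (0 : ℝ)..(2 * π), χ θ ≤ 2 * π * ((1 / 16) * (1 / 2) ^ (k + 2)) := A_exc k
    have h10 : Real.exp (2 - Lv (k + 1)) * (∫ θ in (0 : ℝ)..(2 * π),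
        ‖q.eval (r * ex θ) * Complex.exp (U (r * ex θ))‖) ≤ 6 * π * 2 ^ (k + 1) * Real.exp 2 := by
      calc _ ≤ Real.exp (2 - Lv (k + 1)) * (6 * π * (2 ^ (k + 1) * Real.exp (Lv (k + 1)))) :=
            mul_le_mul_of_nonneg_left h3 (Real.exp_pos _).le
        _ = 6 * π * 2 ^ (k + 1) * (Real.exp (2 - Lv (k + 1)) * Real.exp (Lv (k + 1))) := by ring
        _ = _ := by rw [← Real.exp_add, sub_add_cancel]
    have h11 : β * ∫ θ in (0 : ℝ)..(2 * π), χ θ ≤
        β * (2 * π * ((1 / 16) * (1 / 2) ^ (k + 2))) := mul_le_mul_of_nonneg_left h9 hβ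
    refine h1.trans ?_
    have h12 : (2 * π)⁻¹ * ∫ θ in (0 : ℝ)..(2 * π), ‖q.eval (r * ex θ)‖ ≤
        (2 * π)⁻¹ * (6 * π * 2 ^ (k + 1) * Real.exp 2 +
          β * (2 * π * ((1 / 16) * (1 / 2) ^ (k + 2)))) := by
      apply mul_le_mul_of_nonneg_left _ (by positivity)
      linarith
    have h13 : 2 ^ (k + 2) * ((2 * π)⁻¹ * (6 * π * 2 ^ (k + 1) * Real.exp 2 +
          β * (2 * π * ((1 / 16) * (1 / 2) ^ (k + 2))))) =
        24 * Real.exp 2 * 4 ^ k + β / 16 := by
      have e4 : (4 : ℝ) ^ k = 2 ^ k * 2 ^ k := by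
        rw [← mul_pow]; norm_num
      have e5 : (2 : ℝ) ^ (k + 2) * (1 / 2) ^ (k + 2) = 1 := by
        rw [← mul_pow]; norm_num
      calc _ = (2 * π)⁻¹ * (2 * π) * (3 * 2 ^ (k + 2) * 2 ^ (k + 1) * Real.exp 2 +
            β / 16 * (2 ^ (k + 2) * (1 / 2) ^ (k + 2))) := by ring
        _ = _ := by
          rw [e5, e4, inv_mul_cancel₀ (by positivity)]
          ring
    rw [← h13]
    exact mul_le_mul_of_nonneg_left h12 (by positivity)
  -- iteration
  have iter : ∀ n k, ∀ z : ℂ, ‖z‖ ≤ rad k → ‖q.eval z‖ ≤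
      32 * Real.exp 2 * 4 ^ k + (1 / 16) ^ n * B := by
    intro n
    induction n with
    | zero =>
      intro k z hz
      have h1 := hB z (by
        rw [mem_closedBall, dist_zero_right]; exact hz.trans (rad_lt_one _).le)
      have h2 : 0 ≤ 32 * Real.exp 2 * 4 ^ k := by positivity
      rw [pow_zero, one_mul]
      linarith
    | succ n ih =>
      intro k z hz
      have h1 := hrec k (32 * Real.exp 2 * 4 ^ (k + 1) + (1 / 16) ^ n * B) (by positivity)
        (fun w hw => ih (k + 1) w hw) z hz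
      refine h1.trans (le_of_eq ?_)
      ring
  have h1 : ∀ n : ℕ, ‖q.eval (-(1 / 2))‖ ≤ 32 * Real.exp 2 + (1 / 16) ^ n * B := by
    intro n
    have := iter n 0 (-(1 / 2)) (by
      rw [norm_neg, rad_zero]
      norm_num)
    rw [pow_zero, mul_one] at this
    exact this
  have h2 : Tendsto (fun n : ℕ => 32 * Real.exp 2 + (1 / 16 : ℝ) ^ n * B) atTop
      (𝓝 (32 * Real.exp 2 + 0 * B)) :=
    ((tendsto_pow_atTop_nhds_zero_of_lt_one (by norm_num) (by norm_num)).mul_const B).const_add _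
  rw [zero_mul, add_zero] at h2
  exact ge_of_tendsto' h2 h1

include hU hUA in
theorem f_not_wi {p : ℝ} (hp : 1 ≤ p) :
    ¬ WeaklyInvertible p (nu p) (fun z => Complex.exp (U z)) := by
  rintro ⟨q, hq⟩
  have hpi := Real.pi_pos
  set c : ℝ := min 1 (Real.exp (-Lv 1) / 64) with hc
  have hc0 : 0 < c := lt_min one_pos (by positivity)
  have h1 := hq.eventually (gt_mem_nhds (ENNReal.ofReal_pos.2 hc0))
  obtain ⟨n, hn⟩ := h1.exists
  have hn1 : normE p (nu p) (fun z => (q n).eval z * Complex.exp (U z) - 1) ≤ ENNReal.ofReal 1 :=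
    hn.le.trans (ENNReal.ofReal_le_ofReal (min_le_left _ _))
  have hqb := q_bound hU hUA hp hn1
  have hFd : DifferentiableOn ℂ (fun z => (q n).eval z * Complex.exp (U z) - 1) (ball 0 1) :=
    (((q n).differentiable.differentiableOn).mul hU.cexp).sub (differentiableOn_const _)
  -- the value at `-1/2`
  have hz0 : ‖(-(1 / 2) : ℂ)‖ ≤ rad 0 := by
    rw [norm_neg, rad_zero]; norm_num
  have h2 := hUA 0 (-(1 / 2)) hz0
  have h3 := Complex.re_le_norm (U (-(1 / 2)) - (A 0).eval (-(1 / 2)))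
  have h4 : ((A 0).eval (-(1 / 2) : ℂ)).re = -10 := by
    rw [A_zero, eval_mul, eval_C, eval_X]
    norm_num
  rw [Complex.sub_re, h4] at h3
  rw [pow_zero] at h2
  have h5 : ‖(q n).eval (-(1 / 2)) * Complex.exp (U (-(1 / 2)))‖ ≤ 1 / 2 := by
    rw [norm_mul, Complex.norm_exp]
    have h6 : Real.exp (U (-(1 / 2))).re ≤ Real.exp (-9) := Real.exp_le_exp.2 (by linarith)
    have h7 : Real.exp 2 * Real.exp (-9) = (Real.exp 1 ^ 7)⁻¹ := by
      rw [← Real.exp_add, ← Real.exp_nat_mul, ← Real.exp_neg]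
      norm_num
    have h8 : (128 : ℝ) ≤ Real.exp 1 ^ 7 := by
      have : (2 : ℝ) ≤ Real.exp 1 := by
        have := Real.add_one_le_exp (1 : ℝ)
        linarith
      calc (128 : ℝ) = 2 ^ 7 := by norm_num
        _ ≤ _ := pow_le_pow_left₀ (by norm_num) this 7
    have h9 : (Real.exp 1 ^ 7)⁻¹ ≤ 128⁻¹ := inv_anti₀ (by norm_num) h8
    calc ‖(q n).eval (-(1 / 2))‖ * Real.exp (U (-(1 / 2))).re
        ≤ (32 * Real.exp 2) * Real.exp (-9) :=
          mul_le_mul hqb h6 (Real.exp_pos _).le (by positivity)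
      _ = 32 * (Real.exp 1 ^ 7)⁻¹ := by rw [mul_assoc, h7]
      _ ≤ 1 / 2 := by
        norm_num at h9 ⊢
        linarith
  have h6 : 1 / 2 ≤ ‖(q n).eval (-(1 / 2)) * Complex.exp (U (-(1 / 2))) - 1‖ := by
    have := norm_sub_norm_le (1 : ℂ) ((q n).eval (-(1 / 2)) * Complex.exp (U (-(1 / 2))))
    rw [norm_one, norm_sub_rev] at this
    linarith
  have h7 := cauchy_rad hFd 0 hz0
  have h8 := mean_le hp hFd.continuousOn hc0 hn.le 0
  have h9 : 2 ^ (0 + 2) * ((2 * π)⁻¹ * ∫ θ in (0 : ℝ)..(2 * π),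
      ‖(q n).eval (rad (0 + 1) * ex θ) * Complex.exp (U (rad (0 + 1) * ex θ)) - 1‖) ≤
      16 * c * Real.exp (Lv 1) := by
    have h10 : (2 * π)⁻¹ * (∫ θ in (0 : ℝ)..(2 * π),
      ‖(q n).eval (rad (0 + 1) * ex θ) * Complex.exp (U (rad (0 + 1) * ex θ)) - 1‖) ≤
      (2 * π)⁻¹ * (4 * π * (c * 2 ^ (0 + 1) * Real.exp (Lv (0 + 1)))) :=
      mul_le_mul_of_nonneg_left h8 (by positivity)
    have h11 : (2 * π)⁻¹ * (4 * π * (c * 2 ^ (0 + 1) * Real.exp (Lv (0 + 1)))) =
        4 * c * Real.exp (Lv 1) := by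
      rw [zero_add]
      field_simp
    rw [h11] at h10
    norm_num at h10 ⊢
    linarith
  have h10 : c ≤ Real.exp (-Lv 1) / 64 := min_le_right _ _
  have h11 : 16 * c * Real.exp (Lv 1) ≤ 1 / 4 := by
    calc 16 * c * Real.exp (Lv 1) ≤ 16 * (Real.exp (-Lv 1) / 64) * Real.exp (Lv 1) := by
          gcongr
      _ = 1 / 4 * (Real.exp (-Lv 1) * Real.exp (Lv 1)) := by ring
      _ = 1 / 4 := by rw [← Real.exp_add, neg_add_cancel, Real.exp_zero, mul_one]
  linarith

end

end Pool.Agent.V110.WI
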