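import Mathlib
import Pool.Agent.V110.WI.Main

/-!
# `f = e^U` is weakly invertible in `E^q(μ)` for `q < p`
-/

set_option autoImplicit false

open Filter Topology Set Metric Complex Polynomial MeasureTheory
open scoped Real ENNReal

namespace Pool.Agent.V110.WI

theorem normE_le_gen {p q : ℝ} (hq : 0 < q) {F : ℂ → ℂ} {C : ℝ} (_hC : 0 ≤ C)
    (h : ∀ k, ∀ z : ℂ, ‖z‖ ≤ rad (k + 1) → ‖F z‖ ^ q ≤ C * Real.exp (p * Lv (k + 1))) :
    normE q (nu p) F ≤ (ENNReal.ofReal C) ^ (1 / q) := by
  have hpi := Real.pi_pos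
  refine iSup₂_le fun τ hτ => ?_
  apply ENNReal.rpow_le_rpow _ (by positivity)
  have e0 : Mpow q (nu p) F τ = ∑' k : ℕ, ENNReal.ofReal (wt p k) *
      ((ENNReal.ofReal (2 * π))⁻¹ * ∫⁻ θ in Ioc (0 : ℝ) (2 * π),
        ENNReal.ofReal (‖F (τ * (rad (k + 1) * ex θ))‖ ^ q)) := by
    unfold Mpow nu
    rw [lintegral_sum_measure]
    congr 1
    ext k
    rw [lintegral_smul_measure, lintegral_dirac, smul_eq_mul]
    rfl
  rw [e0]
  have h2 : ∀ k : ℕ, ENNReal.ofReal (wt p k) * ((ENNReal.ofReal (2 * π))⁻¹ *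
      ∫⁻ θ in Ioc (0 : ℝ) (2 * π), ENNReal.ofReal (‖F (τ * (rad (k + 1) * ex θ))‖ ^ q)) ≤
      ENNReal.ofReal ((1 / 2) ^ (k + 1)) * ENNReal.ofReal C := by
    intro k
    have h3 : ∫⁻ θ in Ioc (0 : ℝ) (2 * π),
        ENNReal.ofReal (‖F (τ * (rad (k + 1) * ex θ))‖ ^ q) ≤
        ENNReal.ofReal (C * Real.exp (p * Lv (k + 1))) * ENNReal.ofReal (2 * π) := by
      calc _ ≤ ∫⁻ _ in Ioc (0 : ℝ) (2 * π),
          ENNReal.ofReal (C * Real.exp (p * Lv (k + 1))) := by
            apply lintegral_mono
            intro θ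
            apply ENNReal.ofReal_le_ofReal
            apply h
            rw [norm_mul, norm_mul, ex_norm, mul_one, Complex.norm_real, Complex.norm_real,
              Real.norm_of_nonneg hτ.1, Real.norm_of_nonneg (rad_pos _).le]
            have := rad_pos (k + 1)
            nlinarith [hτ.2]
        _ = _ := by
            rw [lintegral_const, Measure.restrict_apply_univ, Real.volume_Ioc, sub_zero]
    have h4 : (ENNReal.ofReal (2 * π))⁻¹ * (ENNReal.ofReal (C * Real.exp (p * Lv (k + 1))) *
        ENNReal.ofReal (2 * π)) = ENNReal.ofReal (C * Real.exp (p * Lv (k + 1))) := by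
      rw [mul_comm, mul_assoc, ENNReal.mul_inv_cancel, mul_one]
      · simpa using hpi
      · exact ENNReal.ofReal_ne_top
    calc _ ≤ ENNReal.ofReal (wt p k) * ENNReal.ofReal (C * Real.exp (p * Lv (k + 1))) := by
          rw [← h4]
          gcongr
      _ = _ := by
          rw [← ENNReal.ofReal_mul (wt_pos p k).le, ← ENNReal.ofReal_mul (by positivity)]
          congr 1
          unfold wt
          have : Real.exp (-(p * Lv (k + 1))) * Real.exp (p * Lv (k + 1)) = 1 := by
            rw [← Real.exp_add, neg_add_cancel, Real.exp_zero]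
          calc _ = (1 / 2) ^ (k + 1) * C *
              (Real.exp (-(p * Lv (k + 1))) * Real.exp (p * Lv (k + 1))) := by ring
            _ = _ := by rw [this, mul_one]
  calc _ ≤ ∑' k : ℕ, ENNReal.ofReal ((1 / 2) ^ (k + 1)) * ENNReal.ofReal C :=
        ENNReal.tsum_le_tsum h2
    _ = ENNReal.ofReal C := by rw [ENNReal.tsum_mul_right, tsum_half, one_mul]

theorem exists_poly' (j : ℕ) : ∃ q : ℂ[X], ∀ z : ℂ, ‖z‖ ≤ 1 →
    ‖q.eval z - Complex.exp (-((A j).eval z))‖ ≤ (1 / 2) ^ j := by
  have hc : IsConnected (closedBall (0 : ℂ) 1)ᶜ := by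
    constructor
    · refine ⟨2, ?_⟩
      rw [mem_compl_iff, mem_closedBall, dist_zero_right, Complex.norm_ofNat]
      norm_num
    · have h1 : (closedBall (0 : ℂ) 1)ᶜ = {z : ℂ | ‖z‖ ∈ Ioi (1 : ℝ)} := by
        ext z
        simp only [mem_compl_iff, mem_closedBall, dist_zero_right, not_le]
        rfl
      rw [h1]
      exact SP.ring_preconnected isPreconnected_Ioi fun x hx => lt_trans zero_lt_one hx
  obtain ⟨q, hq⟩ := ZFM.J_r3.runge (isCompact_closedBall (0 : ℂ) 1) hc isOpen_univ
    (subset_univ _) (fun z => Complex.exp (-((A j).eval z)))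
    (((A j).differentiable).neg.cexp).differentiableOn ((1 / 2) ^ j) (by positivity)
  refine ⟨q, fun z hz => ?_⟩
  have := hq z (by rw [mem_closedBall, dist_zero_right]; exact hz)
  rw [norm_sub_rev]
  exact this.le

section

variable {U : ℂ → ℂ}
  (hUA : ∀ k, ∀ z : ℂ, ‖z‖ ≤ rad k → ‖U z - (A k).eval z‖ ≤ (1 / 2) ^ k)

include hUA in
theorem f_wi {p q : ℝ} (hq : 0 < q) (hqp : q < p) :
    WeaklyInvertible q (nu p) (fun z => Complex.exp (U z)) := by
  choose P hP using exists_poly'
  refine ⟨P, ?_⟩
  set Cj : ℕ → ℝ := fun j => 5 ^ q * ((((1 : ℝ) / 2) ^ j) ^ q +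
    Real.exp (-(((j : ℝ) + 1) * ((p - q) / 2)))) with hCj
  have hbound : ∀ j : ℕ, 2 * q / (p - q) ≤ (j : ℝ) + 1 →
      normE q (nu p) (fun z => (P j).eval z * Complex.exp (U z) - 1) ≤
      (ENNReal.ofReal (Cj j)) ^ (1 / q) := by
    intro j hj
    have hj0 : (0 : ℝ) ≤ j := Nat.cast_nonneg j
    have hpq : 0 < p - q := by linarith
    refine normE_le_gen hq (by simp only [hCj]; positivity) fun k z hz => ?_
    have hz1 : ‖z‖ ≤ 1 := hz.trans (rad_lt_one _).le
    have hL := Lv_nonneg (k + 1)
    have hL1 : 1 ≤ Real.exp (Lv (k + 1)) := Real.one_le_exp hL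
    have hhp : ((1 : ℝ) / 2) ^ j ≤ 1 := pow_le_one₀ (by norm_num) (by norm_num)
    have hhp0 : (0 : ℝ) < ((1 : ℝ) / 2) ^ j := by positivity
    have hU1 := re_U_le hUA k hz
    have hf : ‖Complex.exp (U z)‖ ≤ 3 * Real.exp (Lv (k + 1)) := by
      rw [Complex.norm_exp]
      have h2 : Real.exp (U z).re ≤ Real.exp 1 * Real.exp (Lv (k + 1)) := by
        rw [← Real.exp_add]
        apply Real.exp_le_exp.2
        linarith
      have h3 := Real.exp_one_lt_three
      nlinarith [Real.exp_pos (Lv (k + 1))]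
    have e1 : (P j).eval z * Complex.exp (U z) - 1 =
        ((P j).eval z - Complex.exp (-((A j).eval z))) * Complex.exp (U z) +
        (Complex.exp (U z - (A j).eval z) - 1) := by
      have : Complex.exp (U z - (A j).eval z) =
          Complex.exp (-((A j).eval z)) * Complex.exp (U z) := by
        rw [← Complex.exp_add]; congr 1; ring
      rw [this]; ring
    have h1 : ‖((P j).eval z - Complex.exp (-((A j).eval z))) * Complex.exp (U z)‖ ≤
        (1 / 2) ^ j * (3 * Real.exp (Lv (k + 1))) := by
      rw [norm_mul]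
      exact mul_le_mul (hP j z hz1) hf (norm_nonneg _) hhp0.le
    have hexpL : Real.exp (q * Lv (k + 1)) ≤ Real.exp (p * Lv (k + 1)) :=
      Real.exp_le_exp.2 (by nlinarith)
    rcases le_or_gt (k + 1) j with hkj | hkj
    · -- the inner circles
      have h3 := hUA j z (hz.trans (rad_mono.monotone hkj))
      have h6 := Complex.norm_exp_sub_one_le (x := U z - (A j).eval z) (by linarith)
      have h7 : ‖(P j).eval z * Complex.exp (U z) - 1‖ ≤
          5 * (1 / 2) ^ j * Real.exp (Lv (k + 1)) := by
        rw [e1]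
        refine (norm_add_le _ _).trans ?_
        nlinarith
      calc ‖(P j).eval z * Complex.exp (U z) - 1‖ ^ q
          ≤ (5 * (1 / 2) ^ j * Real.exp (Lv (k + 1))) ^ q :=
            Real.rpow_le_rpow (norm_nonneg _) h7 hq.le
        _ = 5 ^ q * (((1 : ℝ) / 2) ^ j) ^ q * Real.exp (q * Lv (k + 1)) := by
            rw [Real.mul_rpow (by positivity) (by positivity),
              Real.mul_rpow (by positivity) (by positivity), ← Real.exp_mul,
              mul_comm (Lv (k + 1)) q]
        _ ≤ Cj j * Real.exp (p * Lv (k + 1)) := by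
            apply mul_le_mul _ hexpL (Real.exp_pos _).le (by simp only [hCj]; positivity)
            simp only [hCj]
            have : 0 < Real.exp (-(((j : ℝ) + 1) * ((p - q) / 2))) := Real.exp_pos _
            have h5 : (0 : ℝ) < 5 ^ q := by positivity
            nlinarith
    · -- the outer circles
      have h3 := A_bound' hkj hz1
      set a := ‖(A j).eval z‖ with ha
      have ha0 : 0 ≤ a := norm_nonneg _
      have h3' : a + 1 ≤ Lv (k + 1) / ((j : ℝ) + 1) := by
        rw [le_div_iff₀ (by linarith)]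
        linarith
      set b := Lv (k + 1) / ((j : ℝ) + 1) with hb
      have hbL : b * ((j : ℝ) + 1) = Lv (k + 1) := div_mul_cancel₀ _ (by linarith)
      have hb1 : 1 ≤ b := by linarith
      have h5 : ‖Complex.exp (U z - (A j).eval z)‖ ≤ Real.exp (Lv (k + 1) + b) := by
        rw [Complex.norm_exp, Complex.sub_re]
        apply Real.exp_le_exp.2
        have h6 := Complex.abs_re_le_norm ((A j).eval z)
        have h7 := neg_abs_le ((A j).eval z).re
        linarith
      have h6 : Real.exp (Lv (k + 1)) ≤ Real.exp (Lv (k + 1) + b) :=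
        Real.exp_le_exp.2 (by linarith)
      have h7 : ‖(P j).eval z * Complex.exp (U z) - 1‖ ≤ 5 * Real.exp (Lv (k + 1) + b) := by
        rw [e1]
        refine (norm_add_le _ _).trans ?_
        have h8 : ‖Complex.exp (U z - (A j).eval z) - 1‖ ≤ Real.exp (Lv (k + 1) + b) + 1 := by
          refine (norm_sub_le _ _).trans ?_
          rw [norm_one]
          linarith
        nlinarith
      calc ‖(P j).eval z * Complex.exp (U z) - 1‖ ^ q
          ≤ (5 * Real.exp (Lv (k + 1) + b)) ^ q :=
            Real.rpow_le_rpow (norm_nonneg _) h7 hq.le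
        _ = 5 ^ q * Real.exp (q * (Lv (k + 1) + b)) := by
            rw [Real.mul_rpow (by positivity) (by positivity), ← Real.exp_mul,
              mul_comm (Lv (k + 1) + b) q]
        _ ≤ 5 ^ q * (Real.exp (-(((j : ℝ) + 1) * ((p - q) / 2))) *
              Real.exp (p * Lv (k + 1))) := by
            apply mul_le_mul_of_nonneg_left _ (by positivity)
            rw [← Real.exp_add]
            apply Real.exp_le_exp.2
            -- `q b ≤ (p - q) / 2 * L` and `(j + 1) (p - q) / 2 ≤ (p - q) / 2 * L`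
            have h9 : 2 * q ≤ ((j : ℝ) + 1) * (p - q) := by
              rwa [div_le_iff₀ hpq] at hj
            have h10 : q * b ≤ (p - q) / 2 * Lv (k + 1) := by
              rw [← hbL]
              nlinarith
            have h11 : (j : ℝ) + 1 ≤ Lv (k + 1) := by
              rw [← hbL]
              nlinarith
            nlinarith
        _ ≤ Cj j * Real.exp (p * Lv (k + 1)) := by
            rw [← mul_assoc]
            apply mul_le_mul_of_nonneg_right _ (Real.exp_pos _).le
            simp only [hCj]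
            have : 0 < (((1 : ℝ) / 2) ^ j) ^ q := by positivity
            have h5 : (0 : ℝ) < 5 ^ q := by positivity
            nlinarith
  -- the limit
  have h1 : Tendsto Cj atTop (𝓝 0) := by
    have hpq : 0 < p - q := by linarith
    have h2 : Tendsto (fun j : ℕ => (((1 : ℝ) / 2) ^ j) ^ q) atTop (𝓝 0) := by
      have h3 := (tendsto_pow_atTop_nhds_zero_of_lt_one (by norm_num : (0 : ℝ) ≤ 1 / 2)
        (by norm_num)).rpow_const (p := q) (Or.inr hq.le)
      rwa [Real.zero_rpow hq.ne'] at h3
    have h4 : Tendsto (fun j : ℕ => Real.exp (-(((j : ℝ) + 1) * ((p - q) / 2)))) atTop (𝓝 0) := by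
      apply Real.tendsto_exp_neg_atTop_nhds_zero.comp
      apply Tendsto.atTop_mul_const (by linarith)
      exact tendsto_atTop_add_const_right _ _ tendsto_natCast_atTop_atTop
    have h5 := (h2.add h4).const_mul (5 ^ q)
    simpa [hCj] using h5
  have h2 : Tendsto (fun j => (ENNReal.ofReal (Cj j)) ^ (1 / q)) atTop (𝓝 0) := by
    have h3 := (ENNReal.tendsto_ofReal h1).ennrpow_const (1 / q)
    rwa [ENNReal.ofReal_zero, ENNReal.zero_rpow_of_pos (by positivity)] at h3
  refine tendsto_of_tendsto_of_tendsto_of_le_of_le' tendsto_const_nhds h2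
    (Eventually.of_forall fun _ => bot_le) ?_
  obtain ⟨N, hN⟩ := exists_nat_ge (2 * q / (p - q))
  filter_upwards [eventually_ge_atTop N] with j hj
  apply hbound
  have : (N : ℝ) ≤ j := by exact_mod_cast hj
  linarith

end

end Pool.Agent.V110.WI
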